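import Pool.Agent.Helper36.DG.Second
import Pool.Agent.Helper94.DG.Defs

/-!
# DG: A3, the second moment, and the inequality of Cauchy and Schwarz for A4
-/

set_option autoImplicit false

open Finset

namespace Helper36.DG

section second

variable {A B C : Type*} [Fintype A] [Fintype B] [Fintype C] [Nonempty A] [Nonempty B] [Nonempty C]
  {m : ℕ}

/-- **The second moment of the density.** -/
theorem second_momentR (hm : 0 < m) (R : Fin m → Fin m → Fin m → ℝ)
    (f : Fin m → Fin m → Fin m → A → B → C → ℝ) (h0 : ∀ i j k x y w, 0 ≤ f i j k x y w)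
    (h1 : ∀ i j k x y, ex (fun w => f i j k x y w) = 1)
    (h2 : ∀ i j k w, ex (fun x => ex fun y => f i j k x y w) ≤ 2)
    (h3 : ∀ i j k, ex (fun x => ex fun y => ex fun w => f i j k x y w ^ 2) ≤ R i j k) :
    ex (fun X : Fin m × Fin m → A => ex fun Y : Fin m × Fin m → B =>
      ex fun W : Fin m × Fin m → C =>
        ((∑ i, ∑ j, ∑ k, f i j k (X (i, j)) (Y (j, k)) (W (i, k))) / (m : ℝ) ^ 3 - 1) ^ 2) ≤
      (∑ i, ∑ j, ∑ k, R i j k) / (m : ℝ) ^ 6 + 2 / (m : ℝ) ^ 2 := by
  classical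
  have hm' : (0 : ℝ) < m := by exact_mod_cast hm
  -- conditional second moment
  have c1 : ∀ (X : Fin m × Fin m → A) (Y : Fin m × Fin m → B),
      ex (fun W : Fin m × Fin m → C =>
        ((∑ i, ∑ j, ∑ k, f i j k (X (i, j)) (Y (j, k)) (W (i, k))) / (m : ℝ) ^ 3 - 1) ^ 2) ≤
      (∑ c : Fin m × Fin m, ex (fun w : C => (∑ j, f c.1 j c.2 (X (c.1, j)) (Y (j, c.2)) w) ^ 2)) /
        (m : ℝ) ^ 6 := by
    intro X Y
    let D : Fin m × Fin m → C → ℝ := fun c w =>
      (∑ j, f c.1 j c.2 (X (c.1, j)) (Y (j, c.2)) w) - m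
    have hS : ∀ c : Fin m × Fin m,
        ex (fun w : C => ∑ j, f c.1 j c.2 (X (c.1, j)) (Y (j, c.2)) w) = m := by
      intro c
      rw [ex_sum]
      simp only [h1]
      simp
    have hD : ∀ c, ex (D c) = 0 := by
      intro c
      change ex (fun w : C => (∑ j, f c.1 j c.2 (X (c.1, j)) (Y (j, c.2)) w) - m) = 0
      rw [ex_sub, hS, ex_const, sub_self]
    have e1 : ∀ W : Fin m × Fin m → C,
        ((∑ i, ∑ j, ∑ k, f i j k (X (i, j)) (Y (j, k)) (W (i, k))) / (m : ℝ) ^ 3 - 1) ^ 2 =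
        (∑ c, D c (W c)) ^ 2 / (m : ℝ) ^ 6 := by
      intro W
      have e2 : ∑ c, D c (W c) =
          (∑ i, ∑ j, ∑ k, f i j k (X (i, j)) (Y (j, k)) (W (i, k))) - (m : ℝ) ^ 3 := by
        have e3 : ∑ c : Fin m × Fin m, D c (W c) =
            ∑ c : Fin m × Fin m, (∑ j, f c.1 j c.2 (X (c.1, j)) (Y (j, c.2)) (W c)) -
              ∑ _c : Fin m × Fin m, (m : ℝ) := by
          rw [← Finset.sum_sub_distrib]
        rw [e3, Fintype.sum_prod_type]
        congr 1
        · refine Finset.sum_congr rfl fun i _ => ?_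
          rw [Finset.sum_comm]
        · simp
          ring
      rw [e2]
      field_simp
    rw [ex_congr e1, ex_div, ex_sq_sum D hD]
    gcongr with c _
    change ex (fun w : C => ((∑ j, f c.1 j c.2 (X (c.1, j)) (Y (j, c.2)) w) - m) ^ 2) ≤ _
    have e4 : ∀ w : C, ((∑ j, f c.1 j c.2 (X (c.1, j)) (Y (j, c.2)) w) - m) ^ 2 =
        (∑ j, f c.1 j c.2 (X (c.1, j)) (Y (j, c.2)) w) ^ 2 -
          ((2 * m) * (∑ j, f c.1 j c.2 (X (c.1, j)) (Y (j, c.2)) w) - (m : ℝ) ^ 2) := by
      intro w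
      ring
    rw [ex_congr e4, ex_sub, ex_sub, ex_mul_left, hS, ex_const]
    nlinarith [sq_nonneg (m : ℝ)]
  refine (ex_mono fun X => ex_mono fun Y => c1 X Y).trans ?_
  -- one cell
  have c2 : ∀ c : Fin m × Fin m, ex (fun X : Fin m × Fin m → A => ex fun Y : Fin m × Fin m → B =>
      ex (fun w : C => (∑ j, f c.1 j c.2 (X (c.1, j)) (Y (j, c.2)) w) ^ 2)) ≤
      (∑ j, R c.1 j c.2) + (m : ℝ) ^ 2 * 2 := by
    rintro ⟨i, k⟩
    have e1 : ∀ (X : Fin m × Fin m → A) (Y : Fin m × Fin m → B) (w : C),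
        (∑ j, f i j k (X (i, j)) (Y (j, k)) w) ^ 2 =
          ∑ j, ∑ j', f i j k (X (i, j)) (Y (j, k)) w * f i j' k (X (i, j')) (Y (j', k)) w := by
      intro X Y w
      rw [sq, Finset.sum_mul_sum]
    have e2 : ex (fun X : Fin m × Fin m → A => ex fun Y : Fin m × Fin m → B =>
        ex (fun w : C => (∑ j, f i j k (X (i, j)) (Y (j, k)) w) ^ 2)) =
        ∑ j, ∑ j', ex (fun X : Fin m × Fin m → A => ex fun Y : Fin m × Fin m → B => ex fun w : C =>
          f i j k (X (i, j)) (Y (j, k)) w * f i j' k (X (i, j')) (Y (j', k)) w) := by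
      rw [ex_congr fun X => ex_congr fun Y => ex_congr fun w => e1 X Y w]
      rw [ex_congr fun X => ex_congr fun Y => ex_sum _ _]
      rw [ex_congr fun X => ex_sum _ _]
      rw [ex_sum]
      refine Finset.sum_congr rfl fun j _ => ?_
      rw [ex_congr fun X => ex_congr fun Y => ex_sum _ _]
      rw [ex_congr fun X => ex_sum _ _]
      rw [ex_sum]
    have e3 : ∀ j j' : Fin m, ex (fun X : Fin m × Fin m → A => ex fun Y : Fin m × Fin m → B =>
        ex fun w : C =>
          f i j k (X (i, j)) (Y (j, k)) w * f i j' k (X (i, j')) (Y (j', k)) w) ≤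
        (if j = j' then R i j k else 0) + 2 := by
      intro j j'
      by_cases hj : j = j'
      · subst hj
        rw [if_pos rfl]
        have e5 : ex (fun X : Fin m × Fin m → A => ex fun Y : Fin m × Fin m → B => ex fun w : C =>
            f i j k (X (i, j)) (Y (j, k)) w * f i j k (X (i, j)) (Y (j, k)) w) =
            ex (fun x => ex fun y => ex fun w => f i j k x y w ^ 2) := by
          rw [ex_pi_one (i, j) (fun x => ex fun Y : Fin m × Fin m → B => ex fun w : C =>
            f i j k x (Y (j, k)) w * f i j k x (Y (j, k)) w)]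
          refine ex_congr fun x => ?_
          rw [ex_pi_one (j, k) (fun y => ex fun w : C => f i j k x y w * f i j k x y w)]
          exact ex_congr fun y => ex_congr fun w => (sq _).symm
        rw [e5]
        linarith [h3 i j k]
      · rw [if_neg hj, zero_add]
        have hX : (i, j) ≠ (i, j') := fun h => hj (Prod.ext_iff.1 h).2
        have hY : (j, k) ≠ (j', k) := fun h => hj (Prod.ext_iff.1 h).1
        have e5 : ex (fun X : Fin m × Fin m → A => ex fun Y : Fin m × Fin m → B => ex fun w : C =>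
            f i j k (X (i, j)) (Y (j, k)) w * f i j' k (X (i, j')) (Y (j', k)) w) =
            ex (fun x => ex fun x' => ex fun y => ex fun y' => ex fun w =>
              f i j k x y w * f i j' k x' y' w) := by
          rw [ex_pi_two hX (fun x x' => ex fun Y : Fin m × Fin m → B => ex fun w : C =>
            f i j k x (Y (j, k)) w * f i j' k x' (Y (j', k)) w)]
          refine ex_congr fun x => ex_congr fun x' => ?_
          rw [ex_pi_two hY (fun y y' => ex fun w : C => f i j k x y w * f i j' k x' y' w)]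
        rw [e5]
        -- move `w` to the front
        have e6 : ex (fun x => ex fun x' => ex fun y => ex fun y' => ex fun w =>
            f i j k x y w * f i j' k x' y' w) =
            ex (fun w => ex (fun x => ex fun y => f i j k x y w) *
              ex (fun x' => ex fun y' => f i j' k x' y' w)) := by
          have s1 : ∀ w, ex (fun x => ex fun y => f i j k x y w) *
              ex (fun x' => ex fun y' => f i j' k x' y' w) =
              ex (fun x => ex fun x' => ex fun y => ex fun y' =>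
                f i j k x y w * f i j' k x' y' w) := by
            intro w
            rw [← ex_mul_right]
            refine ex_congr fun x => ?_
            rw [← ex_mul_left]
            refine ex_congr fun x' => ?_
            rw [← ex_mul_right]
            refine ex_congr fun y => ?_
            rw [← ex_mul_left]
          rw [ex_congr s1]
          rw [ex_comm (fun w x => ex fun x' => ex fun y => ex fun y' =>
            f i j k x y w * f i j' k x' y' w)]
          refine ex_congr fun x => ?_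
          rw [ex_comm (fun w x' => ex fun y => ex fun y' => f i j k x y w * f i j' k x' y' w)]
          refine ex_congr fun x' => ?_
          rw [ex_comm (fun w y => ex fun y' => f i j k x y w * f i j' k x' y' w)]
          refine ex_congr fun y => ?_
          rw [ex_comm (fun w y' => f i j k x y w * f i j' k x' y' w)]
        rw [e6]
        have e7 : ex (fun w => ex (fun x => ex fun y => f i j k x y w)) = 1 := by
          rw [ex_comm (fun w x => ex fun y => f i j k x y w)]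
          rw [ex_congr fun x => ex_comm (fun w y => f i j k x y w)]
          rw [ex_congr fun x => ex_congr fun y => h1 i j k x y]
          rw [ex_congr fun x => ex_const _, ex_const]
        calc ex (fun w => ex (fun x => ex fun y => f i j k x y w) *
              ex (fun x' => ex fun y' => f i j' k x' y' w))
            ≤ ex (fun w => ex (fun x => ex fun y => f i j k x y w) * 2) := by
              refine ex_mono fun w => mul_le_mul_of_nonneg_left (h2 i j' k w) ?_
              exact ex_nonneg fun x => ex_nonneg fun y => h0 i j k x y w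
          _ = 2 := by rw [ex_mul_right, e7, one_mul]
    rw [e2]
    refine (Finset.sum_le_sum fun j _ => Finset.sum_le_sum fun j' _ => e3 j j').trans ?_
    refine le_of_eq ?_
    have : ∀ j : Fin m, ∑ j' : Fin m, ((if j = j' then R i j k else 0) + 2) =
        R i j k + m * 2 := by
      intro j
      rw [Finset.sum_add_distrib, Finset.sum_ite_eq, if_pos (Finset.mem_univ j)]
      simp
    rw [Finset.sum_congr rfl fun j _ => this j, Finset.sum_add_distrib]
    simp
    ring
  have c3 : ex (fun X : Fin m × Fin m → A => ex fun Y : Fin m × Fin m → B =>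
      (∑ c : Fin m × Fin m, ex (fun w : C => (∑ j, f c.1 j c.2 (X (c.1, j)) (Y (j, c.2)) w) ^ 2)) /
        (m : ℝ) ^ 6) =
      (∑ c : Fin m × Fin m, ex (fun X : Fin m × Fin m → A => ex fun Y : Fin m × Fin m → B =>
        ex (fun w : C => (∑ j, f c.1 j c.2 (X (c.1, j)) (Y (j, c.2)) w) ^ 2))) / (m : ℝ) ^ 6 := by
    rw [ex_congr fun X => ex_div _ _, ex_div]
    congr 1
    rw [ex_congr fun X => ex_sum _ _, ex_sum]
  rw [c3]
  calc (∑ c : Fin m × Fin m, ex (fun X : Fin m × Fin m → A => ex fun Y : Fin m × Fin m → B =>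
        ex (fun w : C => (∑ j, f c.1 j c.2 (X (c.1, j)) (Y (j, c.2)) w) ^ 2))) / (m : ℝ) ^ 6
      ≤ (∑ c : Fin m × Fin m, ((∑ j, R c.1 j c.2) + (m : ℝ) ^ 2 * 2)) / (m : ℝ) ^ 6 := by
        gcongr with c _
        exact c2 c
    _ = (∑ i, ∑ j, ∑ k, R i j k) / (m : ℝ) ^ 6 + 2 / (m : ℝ) ^ 2 := by
        rw [Finset.sum_add_distrib, Fintype.sum_prod_type, add_div]
        congr 1
        · congr 1
          refine Finset.sum_congr rfl fun i _ => ?_
          rw [Finset.sum_comm]
        · simp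
          field_simp

end second

open Pool.Agent.Helper94.DG

/-- averages over curried arrays -/
theorem ex_curry {α : Type*} [Fintype α] {m : ℕ} (g : (Fin m → Fin m → α) → ℝ) :
    ex g = ex (fun X : Fin m × Fin m → α => g (fun i j => X (i, j))) := by
  rw [← ex_equiv (Equiv.curry (Fin m) (Fin m) α) g]
  rfl

/-- A3 -/
theorem second {m L : ℕ} (hm : 0 < m) (hL : 0 < L)
    (f : Fin m → Fin m → Fin m → Fin L → Fin L → Fin (2 * L) → ℝ)
    (h0 : ∀ i j k x y w, 0 ≤ f i j k x y w) (h1 : ∀ i j k x y, ∑ w, f i j k x y w = 2 * L)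
    (h2 : ∀ i j k w, ∑ x, ∑ y, f i j k x y w ≤ 2 * (L : ℝ) ^ 2) (R : Fin m → Fin m → Fin m → ℝ)
    (h3 : ∀ i j k, ∑ x, ∑ y, ∑ w, f i j k x y w ^ 2 ≤ R i j k * (2 * (L : ℝ) ^ 3)) :
    (∑ S : Arr m L, (((m : ℝ) ^ 3)⁻¹ * ∑ i, ∑ j, ∑ k,
      f i j k (S.1 i j) (S.2.1 j k) (S.2.2 i k) - 1) ^ 2) / Fintype.card (Arr m L) ≤
      (∑ i, ∑ j, ∑ k, R i j k) / (m : ℝ) ^ 6 + 2 / (m : ℝ) ^ 2 := by
  have hLr : (0 : ℝ) < L := by exact_mod_cast hL
  have n1 : Nonempty (Fin L) := ⟨⟨0, hL⟩⟩
  have n2 : Nonempty (Fin (2 * L)) := ⟨⟨0, by omega⟩⟩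
  have g1 : ∀ i j k x y, ex (fun w => f i j k x y w) = 1 := by
    intro i j k x y
    unfold ex
    rw [h1, Fintype.card_fin]
    push_cast
    field_simp
  have g2 : ∀ i j k w, ex (fun x => ex fun y => f i j k x y w) ≤ 2 := by
    intro i j k w
    unfold ex
    rw [← Finset.sum_div, Fintype.card_fin, div_div, div_le_iff₀ (by positivity)]
    refine (h2 i j k w).trans (le_of_eq ?_)
    ring
  have g3 : ∀ i j k, ex (fun x => ex fun y => ex fun w => f i j k x y w ^ 2) ≤ R i j k := by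
    intro i j k
    unfold ex
    simp only [← Finset.sum_div, Fintype.card_fin]
    push_cast
    rw [div_div, div_div, div_le_iff₀ (by positivity)]
    refine (h3 i j k).trans (le_of_eq ?_)
    ring
  have key := second_momentR hm R f h0 g1 g2 g3
  refine le_trans (le_of_eq ?_) key
  change ex (fun S : Arr m L => (((m : ℝ) ^ 3)⁻¹ * ∑ i, ∑ j, ∑ k,
      f i j k (S.1 i j) (S.2.1 j k) (S.2.2 i k) - 1) ^ 2) = _
  rw [ex_prod3 (fun (X : Fin m → Fin m → Fin L) (Y : Fin m → Fin m → Fin L)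
    (W : Fin m → Fin m → Fin (2 * L)) => (((m : ℝ) ^ 3)⁻¹ * ∑ i, ∑ j, ∑ k,
      f i j k (X i j) (Y j k) (W i k) - 1) ^ 2)]
  rw [ex_curry (fun X : Fin m → Fin m → Fin L => ex fun (Y : Fin m → Fin m → Fin L) => ex fun
    (W : Fin m → Fin m → Fin (2 * L)) => (((m : ℝ) ^ 3)⁻¹ * ∑ i, ∑ j, ∑ k,
      f i j k (X i j) (Y j k) (W i k) - 1) ^ 2)]
  refine ex_congr fun X => ?_
  rw [ex_curry (fun (Y : Fin m → Fin m → Fin L) => ex fun
    (W : Fin m → Fin m → Fin (2 * L)) => (((m : ℝ) ^ 3)⁻¹ * ∑ i, ∑ j, ∑ k,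
      f i j k (X (i, j)) (Y j k) (W i k) - 1) ^ 2)]
  refine ex_congr fun Y => ?_
  rw [ex_curry (fun (W : Fin m → Fin m → Fin (2 * L)) => (((m : ℝ) ^ 3)⁻¹ * ∑ i, ∑ j, ∑ k,
      f i j k (X (i, j)) (Y (j, k)) (W i k) - 1) ^ 2)]
  refine ex_congr fun W => ?_
  rw [inv_mul_eq_div]

/-- A4, from A1 and A2 -/
theorem one_part_aux {m L : ℕ} (hm : 0 < m) (hL : 0 < L) (a b : Fin m → Fin m → Fin L → ℕ)
    (c : Fin m → Fin m → Fin (2 * L) → ℕ) (Ka Kb Kc : Fin m → Fin m → ℕ)
    (d : Fin 3 → Bool) (Ψ : Arr m L → ℝ) (h0 : ∀ S, 0 ≤ Ψ S) (h1 : ∀ S, Ψ S ≤ 1)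
    (hlaw : ∑ D : Data m L, mass a b c D * Ψ (corner d D) =
      (∑ S : Arr m L, densF d a b c S * Ψ S) / Fintype.card (Arr m L))
    (dnn : ∀ i j k x y w, 0 ≤ dens d (a i j) (b j k) (c i k) x y w)
    (dw : ∀ i j k x y, ∑ w, dens d (a i j) (b j k) (c i k) x y w = 2 * L)
    (dxy : ∀ i j k w, ∑ x, ∑ y, dens d (a i j) (b j k) (c i k) x y w ≤ 2 * (L : ℝ) ^ 2)
    (dsq : ∀ i j k, ∑ x, ∑ y, ∑ w, dens d (a i j) (b j k) (c i k) x y w ^ 2 ≤
      2 * ((Ka i j : ℝ) + Kb j k + Kc i k) * (2 * (L : ℝ) ^ 3)) :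
    ∑ D : Data m L, mass a b c D * Ψ (corner d D) ≤ (∑ S, Ψ S) / Fintype.card (Arr m L) +
      √(2 * (∑ i, ∑ j, ((Ka i j : ℝ) + Kb i j + Kc i j)) / (m : ℝ) ^ 5 + 2 / (m : ℝ) ^ 2) := by
  have hLr : (0 : ℝ) < L := by exact_mod_cast hL
  have hmr : (0 : ℝ) < m := by exact_mod_cast hm
  have n1 : Nonempty (Fin L) := ⟨⟨0, hL⟩⟩
  have n2 : Nonempty (Fin (2 * L)) := ⟨⟨0, by omega⟩⟩
  have key := second hm hL (fun i j k x y w => dens d (a i j) (b j k) (c i k) x y w) dnn dw dxy
    (fun i j k => 2 * ((Ka i j : ℝ) + Kb j k + Kc i k)) dsq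
  have e1 : (∑ i, ∑ j, ∑ k, 2 * ((Ka i j : ℝ) + Kb j k + Kc i k)) / (m : ℝ) ^ 6 =
      2 * (∑ i, ∑ j, ((Ka i j : ℝ) + Kb i j + Kc i j)) / (m : ℝ) ^ 5 := by
    have s1 : ∑ i : Fin m, ∑ j : Fin m, ∑ _k : Fin m, (Ka i j : ℝ) =
        m * ∑ i, ∑ j, (Ka i j : ℝ) := by
      simp [Finset.mul_sum]
    have s2 : ∑ _i : Fin m, ∑ j : Fin m, ∑ k : Fin m, (Kb j k : ℝ) =
        m * ∑ i, ∑ j, (Kb i j : ℝ) := by
      simp
    have s3 : ∑ i : Fin m, ∑ _j : Fin m, ∑ k : Fin m, (Kc i k : ℝ) =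
        m * ∑ i, ∑ j, (Kc i j : ℝ) := by
      simp [Finset.mul_sum]
    have s4 : (∑ i, ∑ j, ∑ k, 2 * ((Ka i j : ℝ) + Kb j k + Kc i k)) =
        2 * (m * ∑ i, ∑ j, ((Ka i j : ℝ) + Kb i j + Kc i j)) := by
      simp only [← Finset.mul_sum, Finset.sum_add_distrib] at s1 s2 s3 ⊢
      rw [s1, s2, s3]
      ring
    rw [s4]
    field_simp
  rw [e1] at key
  rw [hlaw]
  have e2 : (∑ S : Arr m L, densF d a b c S * Ψ S) / Fintype.card (Arr m L) =
      (∑ S, Ψ S) / Fintype.card (Arr m L) +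
        ex (fun S : Arr m L => (densF d a b c S - 1) * Ψ S) := by
    unfold ex
    rw [← add_div, ← Finset.sum_add_distrib]
    congr 1
    exact Finset.sum_congr rfl fun S _ => by ring
  rw [e2]
  gcongr
  refine le_trans ?_ (ex_abs_le_sqrt (fun S : Arr m L => densF d a b c S - 1) key)
  refine ex_mono fun S => ?_
  calc (densF d a b c S - 1) * Ψ S ≤ |densF d a b c S - 1| * Ψ S :=
        mul_le_mul_of_nonneg_right (le_abs_self _) (h0 S)
    _ ≤ |densF d a b c S - 1| * 1 := mul_le_mul_of_nonneg_left (h1 S) (abs_nonneg _)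
    _ = _ := mul_one _

end Helper36.DG
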