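import Pool.Agent.Helper36.DG.A34
import Pool.Agent.Helper14.DG.Law
import Pool.Agent.Helper56.DG.Ker

/-!
# DG: A4
-/

set_option autoImplicit false

open Finset

namespace Helper36.DG

open Pool.Agent.Helper94.DG

/-- A4 -/
theorem one_part {m L : ℕ} (hm : 0 < m) (hL : 0 < L) (a b : Fin m → Fin m → Fin L → ℕ)
    (c : Fin m → Fin m → Fin (2 * L) → ℕ) (Ka Kb Kc : Fin m → Fin m → ℕ)
    (ha : ∀ i j x, a i j x < Ka i j) (hb : ∀ i j x, b i j x < Kb i j)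
    (hc : ∀ i j x, c i j x < Kc i j) (d : Fin 3 → Bool) (hd : ∃ s, d s = true)
    (Ψ : Arr m L → ℝ) (h0 : ∀ S, 0 ≤ Ψ S) (h1 : ∀ S, Ψ S ≤ 1) :
    ∑ D : Data m L, mass a b c D * Ψ (corner d D) ≤ (∑ S, Ψ S) / Fintype.card (Arr m L) +
      √(2 * (∑ i, ∑ j, ((Ka i j : ℝ) + Kb i j + Kc i j)) / (m : ℝ) ^ 5 + 2 / (m : ℝ) ^ 2) :=
  one_part_aux hm hL a b c Ka Kb Kc d Ψ h0 h1 (Pool.Agent.Helper14.DG.law hm hL a b c d Ψ)
    (fun i j k x y w => Pool.Agent.Helper56.DG.dens_nonneg d _ _ _ x y w)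
    (fun i j k x y => Pool.Agent.Helper56.DG.dens_w d _ _ _ x y)
    (fun i j k w => Pool.Agent.Helper56.DG.dens_xy d _ _ _ w)
    (fun i j k => Pool.Agent.Helper56.DG.dens_sq d hd _ _ _ (Ka i j) (Kb j k) (Kc i k)
      (ha i j) (hb j k) (hc i k))

end Helper36.DG
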