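import Pool.Agent.Helper36.DG.Second

/-!
# Averages over the classes of digests, and the density of a resampled triangle
-/

set_option autoImplicit false

open Finset

namespace Helper36.DG

section avg

variable {A D : Type*} [Fintype A] [DecidableEq D]

/-- the class of `x` -/
def cls (d : A → D) (x : A) : Finset A := univ.filter fun x' => d x' = d x

/-- the average over the class of `x` -/
noncomputable def avg (d : A → D) (h : A → ℝ) (x : A) : ℝ :=
  (∑ x' ∈ cls d x, h x') / ((cls d x).card : ℝ)

theorem mem_cls (d : A → D) (x x' : A) : x' ∈ cls d x ↔ d x' = d x := by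
  unfold cls
  simp

theorem cls_eq (d : A → D) {x x' : A} (h : d x' = d x) : cls d x' = cls d x := by
  unfold cls
  rw [h]

theorem cls_pos (d : A → D) (x : A) : (0 : ℝ) < (cls d x).card := by
  have : 0 < (cls d x).card := Finset.card_pos.2 ⟨x, (mem_cls d x x).2 rfl⟩
  exact_mod_cast this

theorem avg_const (d : A → D) (c : ℝ) (x : A) : avg d (fun _ => c) x = c := by
  unfold avg
  rw [Finset.sum_const, nsmul_eq_mul]
  have := (cls_pos d x).ne'
  field_simp

theorem avg_nonneg (d : A → D) {h : A → ℝ} (h0 : ∀ x, 0 ≤ h x) (x : A) : 0 ≤ avg d h x :=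
  div_nonneg (Finset.sum_nonneg fun x' _ => h0 x') (cls_pos d x).le

theorem avg_mono (d : A → D) {h h' : A → ℝ} (hh : ∀ x, h x ≤ h' x) (x : A) :
    avg d h x ≤ avg d h' x := by
  unfold avg
  have := cls_pos d x
  gcongr with x' _
  exact hh x'

theorem avg_le_const (d : A → D) {h : A → ℝ} {c : ℝ} (hh : ∀ x, h x ≤ c) (x : A) :
    avg d h x ≤ c :=
  (avg_mono d hh x).trans (le_of_eq (avg_const d c x))

/-- the average commutes with other averages -/
theorem avg_ex {Ω : Type*} [Fintype Ω] (d : A → D) (h : A → Ω → ℝ) (x : A) :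
    avg d (fun x' => ex (h x')) x = ex (fun ω => avg d (fun x' => h x' ω) x) := by
  unfold avg
  rw [ex_div, ex_sum]

theorem avg_adj (d : A → D) (h φ : A → ℝ) :
    ∑ x, avg d h x * φ x = ∑ x, h x * avg d φ x := by
  unfold avg
  have e1 : ∀ x, (∑ x' ∈ cls d x, h x') / ((cls d x).card : ℝ) * φ x =
      ∑ x', if d x' = d x then h x' * φ x / ((cls d x).card : ℝ) else 0 := by
    intro x
    rw [← Finset.sum_filter, div_mul_eq_mul_div, Finset.sum_mul, Finset.sum_div]
    rfl
  have e2 : ∀ x, h x * ((∑ x' ∈ cls d x, φ x') / ((cls d x).card : ℝ)) =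
      ∑ x', if d x' = d x then h x * φ x' / ((cls d x).card : ℝ) else 0 := by
    intro x
    rw [← Finset.sum_filter, mul_div_assoc', Finset.mul_sum, Finset.sum_div]
    rfl
  rw [Finset.sum_congr rfl fun x _ => e1 x, Finset.sum_congr rfl fun x _ => e2 x,
    Finset.sum_comm]
  refine Finset.sum_congr rfl fun x _ => Finset.sum_congr rfl fun x' _ => ?_
  by_cases h1 : d x = d x'
  · rw [if_pos h1, if_pos h1.symm, cls_eq d h1]
  · rw [if_neg h1, if_neg fun h2 => h1 h2.symm]

theorem ex_avg_mul (d : A → D) (h φ : A → ℝ) :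
    ex (fun x => avg d h x * φ x) = ex (fun x => h x * avg d φ x) := by
  unfold ex
  rw [avg_adj]

theorem ex_avg (d : A → D) (h : A → ℝ) : ex (avg d h) = ex h := by
  have := ex_avg_mul d h (fun _ => 1)
  simp only [mul_one, avg_const] at this
  exact this

theorem avg_le_ex [Nonempty A] (d : A → D) {h : A → ℝ} (h0 : ∀ x, 0 ≤ h x) (x : A) :
    avg d h x ≤ (Fintype.card A : ℝ) / ((cls d x).card : ℝ) * ex h := by
  unfold avg ex
  have h1 : (Fintype.card A : ℝ) ≠ 0 := by exact_mod_cast Fintype.card_ne_zero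
  have h2 := cls_pos d x
  have e : (Fintype.card A : ℝ) / ((cls d x).card : ℝ) * ((∑ ω, h ω) / (Fintype.card A : ℝ)) =
      (∑ ω, h ω) / ((cls d x).card : ℝ) := by
    field_simp
  rw [e]
  refine div_le_div_of_nonneg_right ?_ h2.le
  exact Finset.sum_le_sum_of_subset_of_nonneg (Finset.subset_univ _) fun x' _ _ => h0 x'

/-- the number of classes -/
theorem ex_inv_cls [Nonempty A] [Fintype D] (d : A → D) :
    ex (fun x => (Fintype.card A : ℝ) / ((cls d x).card : ℝ)) ≤ Fintype.card D := by
  classical
  unfold ex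
  have h1 : (Fintype.card A : ℝ) ≠ 0 := by exact_mod_cast Fintype.card_ne_zero
  have e1 : ∑ x, (Fintype.card A : ℝ) / ((cls d x).card : ℝ) =
      Fintype.card A * ∑ x, 1 / ((cls d x).card : ℝ) := by
    rw [Finset.mul_sum]
    exact Finset.sum_congr rfl fun x _ => by rw [mul_one_div]
  rw [e1, mul_div_cancel_left₀ _ h1]
  · have e2 : ∑ x, 1 / ((cls d x).card : ℝ) =
        ∑ c : D, ∑ x ∈ univ.filter (fun x => d x = c), 1 / ((cls d x).card : ℝ) :=
      (Finset.sum_fiberwise _ _ _).symm
    rw [e2]
    calc ∑ c : D, ∑ x ∈ univ.filter (fun x => d x = c), 1 / ((cls d x).card : ℝ)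
        ≤ ∑ _c : D, (1 : ℝ) := by
          refine Finset.sum_le_sum fun c _ => ?_
          have e3 : ∀ x ∈ univ.filter (fun x => d x = c), 1 / ((cls d x).card : ℝ) =
              1 / ((univ.filter fun x => d x = c).card : ℝ) := by
            intro x hx
            rw [Finset.mem_filter] at hx
            unfold cls
            rw [hx.2]
          rw [Finset.sum_congr rfl e3, Finset.sum_const, nsmul_eq_mul, mul_one_div]
          exact div_self_le_one _
      _ = Fintype.card D := by simp

end avg

/-- resample or not -/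
noncomputable def op {A D : Type*} [Fintype A] [DecidableEq D] (b : Bool) (d : A → D)
    (h : A → ℝ) (x : A) : ℝ := if b = true then avg d h x else h x

section op

variable {A D : Type*} [Fintype A] [DecidableEq D] (b : Bool) (d : A → D)

theorem op_const (c : ℝ) (x : A) : op b d (fun _ => c) x = c := by
  unfold op
  split_ifs
  · exact avg_const d c x
  · rfl

theorem op_nonneg {h : A → ℝ} (h0 : ∀ x, 0 ≤ h x) (x : A) : 0 ≤ op b d h x := by
  unfold op
  split_ifs
  · exact avg_nonneg d h0 x
  · exact h0 x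

theorem op_le_const {h : A → ℝ} {c : ℝ} (hh : ∀ x, h x ≤ c) (x : A) : op b d h x ≤ c := by
  unfold op
  split_ifs
  · exact avg_le_const d hh x
  · exact hh x

theorem op_ex {Ω : Type*} [Fintype Ω] (h : A → Ω → ℝ) (x : A) :
    op b d (fun x' => ex (h x')) x = ex (fun ω => op b d (fun x' => h x' ω) x) := by
  unfold op
  split_ifs
  · exact avg_ex d h x
  · rfl

theorem ex_op (h : A → ℝ) : ex (op b d h) = ex h := by
  unfold op
  split_ifs
  · exact ex_avg d h
  · rfl

theorem ex_op_mul (h φ : A → ℝ) :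
    ex (fun x => op b d h x * φ x) = ex (fun x => h x * op b d φ x) := by
  unfold op
  split_ifs
  · exact ex_avg_mul d h φ
  · rfl

end op

section dens

variable {L : ℕ} {D : Type} [DecidableEq D]

/-- the density of the planted triangle -/
noncomputable def pl (x y : Fin L) (w : Fin (2 * L)) : ℝ :=
  if (x : ℕ) + (y : ℕ) = (w : ℕ) then 2 * L else 0

/-- resampling of the three coordinates -/
noncomputable def rs (r : Bool × Bool × Bool) (dx dy : Fin L → D) (dw : Fin (2 * L) → D)
    (g : Fin L → Fin L → Fin (2 * L) → ℝ) (x y : Fin L) (w : Fin (2 * L)) : ℝ :=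
  op r.1 dx (fun x' => op r.2.1 dy (fun y' => op r.2.2 dw (fun w' => g x' y' w') w) y) x

/-- the sum -/
def sm (x y : Fin L) : Fin (2 * L) := ⟨x + y, by omega⟩

theorem rs_nonneg (r : Bool × Bool × Bool) (dx dy : Fin L → D) (dw : Fin (2 * L) → D)
    {g : Fin L → Fin L → Fin (2 * L) → ℝ} (h0 : ∀ x y w, 0 ≤ g x y w) (x y : Fin L)
    (w : Fin (2 * L)) : 0 ≤ rs r dx dy dw g x y w :=
  op_nonneg _ _ (fun x' => op_nonneg _ _ (fun y' => op_nonneg _ _ (fun w' => h0 x' y' w') _) _) _

theorem pl_nonneg (x y : Fin L) (w : Fin (2 * L)) : 0 ≤ pl x y w := by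
  unfold pl
  split_ifs <;> positivity

theorem ex_pl_w (x y : Fin L) : ex (fun w => pl x y w) = 1 := by
  unfold ex pl
  have hL : (0 : ℝ) < L := by
    have := x.pos
    exact_mod_cast this
  rw [Finset.sum_eq_single (sm x y)]
  · rw [if_pos (show (x : ℕ) + (y : ℕ) = (sm x y : ℕ) from rfl), Fintype.card_fin]
    push_cast
    field_simp
  · intro w _ hw
    rw [if_neg]
    intro h
    exact hw (Fin.ext h.symm)
  · intro h
    exact absurd (Finset.mem_univ _) h

theorem ex_pl_x (y : Fin L) (w : Fin (2 * L)) : ex (fun x => pl x y w) ≤ 2 := by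
  unfold ex pl
  have hL : (0 : ℝ) < L := by
    have := y.pos
    exact_mod_cast this
  rw [Fintype.card_fin, div_le_iff₀ hL, ← Finset.sum_filter, Finset.sum_const, nsmul_eq_mul]
  have hc : ((univ.filter fun x : Fin L => (x : ℕ) + (y : ℕ) = (w : ℕ)).card : ℝ) ≤ 1 := by
    have : (univ.filter fun x : Fin L => (x : ℕ) + (y : ℕ) = (w : ℕ)).card ≤ 1 := by
      rw [Finset.card_le_one]
      intro a ha b hb
      simp only [Finset.mem_filter, Finset.mem_univ, true_and] at ha hb
      exact Fin.ext (by omega)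
    exact_mod_cast this
  nlinarith

theorem ex_pl_y (x : Fin L) (w : Fin (2 * L)) : ex (fun y => pl x y w) ≤ 2 := by
  have : ∀ y, pl x y w = pl y x w := by
    intro y
    unfold pl
    rw [add_comm]
  rw [ex_congr this]
  exact ex_pl_x x w

variable (r : Bool × Bool × Bool) (dx dy : Fin L → D) (dw : Fin (2 * L) → D)

/-- (h1) -/
theorem rs_h1 (x y : Fin L) : ex (fun w => rs r dx dy dw pl x y w) = 1 := by
  unfold rs
  rw [← op_ex r.1 dx (fun x' w => op r.2.1 dy (fun y' => op r.2.2 dw (fun w' => pl x' y' w') w) y)]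
  have e : ∀ x', ex (fun w => op r.2.1 dy (fun y' => op r.2.2 dw (fun w' => pl x' y' w') w) y) =
      1 := by
    intro x'
    rw [← op_ex r.2.1 dy (fun y' w => op r.2.2 dw (fun w' => pl x' y' w') w)]
    have e2 : ∀ y', ex (fun w => op r.2.2 dw (fun w' => pl x' y' w') w) = 1 := by
      intro y'
      rw [ex_op r.2.2 dw (fun w' => pl x' y' w')]
      exact ex_pl_w x' y'
    simp only [e2]
    exact op_const _ _ _ _
  simp only [e]
  exact op_const _ _ _ _

/-- (h2) -/
theorem rs_h2 (w : Fin (2 * L)) :
    ex (fun x => ex fun y => rs r dx dy dw pl x y w) ≤ 2 := by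
  unfold rs
  have e1 : ∀ x, ex (fun y => op r.1 dx (fun x' => op r.2.1 dy
      (fun y' => op r.2.2 dw (fun w' => pl x' y' w') w) y) x) =
      op r.1 dx (fun x' => ex (fun y' => op r.2.2 dw (fun w' => pl x' y' w') w)) x := by
    intro x
    rw [← op_ex r.1 dx (fun x' y => op r.2.1 dy (fun y' => op r.2.2 dw (fun w' => pl x' y' w') w) y)]
    congr 1
    funext x'
    exact ex_op r.2.1 dy _
  rw [ex_congr e1, ex_op r.1 dx]
  rw [ex_comm (fun x' y' => op r.2.2 dw (fun w' => pl x' y' w') w)]
  have e2 : ∀ y', ex (fun x' => op r.2.2 dw (fun w' => pl x' y' w') w) ≤ 2 := by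
    intro y'
    rw [show (fun x' => op r.2.2 dw (fun w' => pl x' y' w') w) =
      fun x' => op r.2.2 dw (fun w' => pl x' y' w') w from rfl]
    have := op_ex r.2.2 dw (fun (w' : Fin (2 * L)) (x' : Fin L) => pl x' y' w') w
    rw [← this]
    exact op_le_const _ _ (fun w' => ex_pl_x y' w') w
  rcases Nat.eq_zero_or_pos L with hL | hL
  · subst hL
    exact absurd w.2 (by simp)
  · have : Nonempty (Fin L) := ⟨⟨0, hL⟩⟩
    exact (ex_mono e2).trans (le_of_eq (ex_const _))

/-- a bound for the square -/
theorem sq_bound {Ω Ω' : Type*} [Fintype Ω] [Fintype Ω'] [Nonempty Ω] [Fintype D] (d : Ω → D)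
    (f : Ω → Ω' → ℝ) (h0 : ∀ a b, 0 ≤ f a b) {c c' : ℝ} (hc : 0 ≤ c)
    (h1 : ∀ a b, f a b ≤ (Fintype.card Ω : ℝ) / ((cls d a).card : ℝ) * c)
    (h2 : ∀ a, ex (f a) ≤ c') (hc' : 0 ≤ c') :
    ex (fun a => ex fun b => f a b ^ 2) ≤ c * c' * Fintype.card D := by
  have e1 : ∀ a, ex (fun b => f a b ^ 2) ≤
      (Fintype.card Ω : ℝ) / ((cls d a).card : ℝ) * (c * c') := by
    intro a
    have hp : 0 ≤ (Fintype.card Ω : ℝ) / ((cls d a).card : ℝ) := by positivity
    calc ex (fun b => f a b ^ 2)
        ≤ ex (fun b => ((Fintype.card Ω : ℝ) / ((cls d a).card : ℝ) * c) * f a b) := by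
          refine ex_mono fun b => ?_
          rw [sq]
          exact mul_le_mul_of_nonneg_right (h1 a b) (h0 a b)
      _ = ((Fintype.card Ω : ℝ) / ((cls d a).card : ℝ) * c) * ex (f a) := ex_mul_left _ _
      _ ≤ ((Fintype.card Ω : ℝ) / ((cls d a).card : ℝ) * c) * c' :=
          mul_le_mul_of_nonneg_left (h2 a) (mul_nonneg hp hc)
      _ = _ := by ring
  refine (ex_mono e1).trans ?_
  rw [ex_mul_right, mul_comm]
  exact mul_le_mul_of_nonneg_left (ex_inv_cls d) (mul_nonneg hc hc')

/-- (h3) -/
theorem rs_h3 [Fintype D] (hr : r ≠ (false, false, false)) (hL : 0 < L) :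
    ex (fun x => ex fun y => ex fun w => rs r dx dy dw pl x y w ^ 2) ≤
      2 * Fintype.card D := by
  have : Nonempty (Fin L) := ⟨⟨0, hL⟩⟩
  have : Nonempty (Fin (2 * L)) := ⟨⟨0, by omega⟩⟩
  have h0 : ∀ x y w, 0 ≤ rs r dx dy dw pl x y w := rs_nonneg r dx dy dw pl_nonneg
  have hh1 := rs_h1 r dx dy dw
  have hh2 := rs_h2 r dx dy dw
  rcases r with ⟨bx, by', bw⟩
  by_cases hx : bx = true
  · -- the first coordinate is resampled
    subst hx
    have e : ex (fun x => ex fun y => ex fun w => rs (true, by', bw) dx dy dw pl x y w ^ 2) =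
        ex (fun x => ex fun p : Fin L × Fin (2 * L) =>
          rs (true, by', bw) dx dy dw pl x p.1 p.2 ^ 2) := by
      refine ex_congr fun x => ?_
      exact (ex_prod (fun y w => rs (true, by', bw) dx dy dw pl x y w ^ 2)).symm
    rw [e]
    refine (sq_bound dx (fun x (p : Fin L × Fin (2 * L)) => rs (true, by', bw) dx dy dw pl x p.1 p.2)
      (fun x p => h0 x p.1 p.2) (c := 2) (c' := 1) (by norm_num) ?_ ?_ (by norm_num)).trans
      (by norm_num)
    · rintro x ⟨y, w⟩
      change avg dx (fun x' => op by' dy (fun y' => op bw dw (fun w' => pl x' y' w') w) y) x ≤ _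
      refine (avg_le_ex dx (fun x' => op_nonneg _ _ (fun y' => op_nonneg _ _
        (fun w' => pl_nonneg x' y' w') _) _) x).trans ?_
      refine mul_le_mul_of_nonneg_left ?_ (by positivity)
      rw [← op_ex by' dy (fun y' x' => op bw dw (fun w' => pl x' y' w') w)]
      refine op_le_const _ _ (fun y' => ?_) _
      rw [← op_ex bw dw (fun w' x' => pl x' y' w')]
      exact op_le_const _ _ (fun w' => ex_pl_x y' w') _
    · intro x
      rw [ex_prod (fun y w => rs (true, by', bw) dx dy dw pl x y w), ex_congr fun y => hh1 x y]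
      rw [ex_const]
  by_cases hy : by' = true
  · subst hy
    have e : ex (fun x => ex fun y => ex fun w => rs (bx, true, bw) dx dy dw pl x y w ^ 2) =
        ex (fun y => ex fun p : Fin L × Fin (2 * L) =>
          rs (bx, true, bw) dx dy dw pl p.1 y p.2 ^ 2) := by
      rw [ex_comm (fun x y => ex fun w => rs (bx, true, bw) dx dy dw pl x y w ^ 2)]
      refine ex_congr fun y => ?_
      exact (ex_prod (fun x w => rs (bx, true, bw) dx dy dw pl x y w ^ 2)).symm
    rw [e]
    refine (sq_bound dy (fun y (p : Fin L × Fin (2 * L)) => rs (bx, true, bw) dx dy dw pl p.1 y p.2)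
      (fun y p => h0 p.1 y p.2) (c := 2) (c' := 1) (by norm_num) ?_ ?_ (by norm_num)).trans
      (by norm_num)
    · rintro y ⟨x, w⟩
      have hbx : bx = false := by simpa using hx
      subst hbx
      change avg dy (fun y' => op bw dw (fun w' => pl x y' w') w) y ≤ _
      refine (avg_le_ex dy (fun y' => op_nonneg _ _ (fun w' => pl_nonneg x y' w') _) y).trans ?_
      refine mul_le_mul_of_nonneg_left ?_ (by positivity)
      rw [← op_ex bw dw (fun w' y' => pl x y' w')]
      exact op_le_const _ _ (fun w' => ex_pl_y x w') _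
    · intro y
      rw [ex_prod (fun x w => rs (bx, true, bw) dx dy dw pl x y w), ex_congr fun x => hh1 x y]
      rw [ex_const]
  have hbx : bx = false := by simpa using hx
  have hby : by' = false := by simpa using hy
  subst hbx
  subst hby
  have hbw : bw = true := by
    by_contra hn
    have : bw = false := by simpa using hn
    subst this
    exact hr rfl
  subst hbw
  have e : ex (fun x => ex fun y => ex fun w => rs (false, false, true) dx dy dw pl x y w ^ 2) =
      ex (fun w => ex fun p : Fin L × Fin L =>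
        rs (false, false, true) dx dy dw pl p.1 p.2 w ^ 2) := by
    rw [ex_congr fun x => ex_comm (fun y w => rs (false, false, true) dx dy dw pl x y w ^ 2)]
    rw [ex_comm (fun x w => ex fun y => rs (false, false, true) dx dy dw pl x y w ^ 2)]
    refine ex_congr fun w => ?_
    exact (ex_prod (fun x y => rs (false, false, true) dx dy dw pl x y w ^ 2)).symm
  rw [e]
  refine (sq_bound dw (fun w (p : Fin L × Fin L) => rs (false, false, true) dx dy dw pl p.1 p.2 w)
    (fun w p => h0 p.1 p.2 w) (c := 1) (c' := 2) (by norm_num) ?_ ?_ (by norm_num)).trans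
    (by norm_num)
  · rintro w ⟨x, y⟩
    change avg dw (fun w' => pl x y w') w ≤ _
    refine (avg_le_ex dw (fun w' => pl_nonneg x y w') w).trans ?_
    rw [ex_pl_w]
  · intro w
    rw [ex_prod (fun x y => rs (false, false, true) dx dy dw pl x y w)]
    exact hh2 w

/-- resampling is self adjoint -/
theorem rs_adj (g φ : Fin L → Fin L → Fin (2 * L) → ℝ) :
    ex (fun x => ex fun y => ex fun w => rs r dx dy dw g x y w * φ x y w) =
      ex (fun x => ex fun y => ex fun w => g x y w * rs r dx dy dw φ x y w) := by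
  -- one coordinate at a time
  have k1 : ∀ g φ : Fin L → Fin L → Fin (2 * L) → ℝ,
      ex (fun x => ex fun y => ex fun w => op r.1 dx (fun x' => g x' y w) x * φ x y w) =
        ex (fun x => ex fun y => ex fun w => g x y w * op r.1 dx (fun x' => φ x' y w) x) := by
    intro g φ
    rw [ex_comm (fun x y => ex fun w => op r.1 dx (fun x' => g x' y w) x * φ x y w),
      ex_comm (fun x y => ex fun w => g x y w * op r.1 dx (fun x' => φ x' y w) x)]
    refine ex_congr fun y => ?_
    rw [ex_comm (fun x w => op r.1 dx (fun x' => g x' y w) x * φ x y w),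
      ex_comm (fun x w => g x y w * op r.1 dx (fun x' => φ x' y w) x)]
    exact ex_congr fun w => ex_op_mul r.1 dx (fun x' => g x' y w) (fun x => φ x y w)
  have k2 : ∀ g φ : Fin L → Fin L → Fin (2 * L) → ℝ,
      ex (fun x => ex fun y => ex fun w => op r.2.1 dy (fun y' => g x y' w) y * φ x y w) =
        ex (fun x => ex fun y => ex fun w => g x y w * op r.2.1 dy (fun y' => φ x y' w) y) := by
    intro g φ
    refine ex_congr fun x => ?_
    rw [ex_comm (fun y w => op r.2.1 dy (fun y' => g x y' w) y * φ x y w),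
      ex_comm (fun y w => g x y w * op r.2.1 dy (fun y' => φ x y' w) y)]
    exact ex_congr fun w => ex_op_mul r.2.1 dy (fun y' => g x y' w) (fun y => φ x y w)
  have k3 : ∀ g φ : Fin L → Fin L → Fin (2 * L) → ℝ,
      ex (fun x => ex fun y => ex fun w => op r.2.2 dw (fun w' => g x y w') w * φ x y w) =
        ex (fun x => ex fun y => ex fun w => g x y w * op r.2.2 dw (fun w' => φ x y w') w) := by
    intro g φ
    exact ex_congr fun x => ex_congr fun y => ex_op_mul r.2.2 dw (fun w' => g x y w') (fun w => φ x y w)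
  -- the operators commute
  have comm2 : ∀ (b b' : Bool) {A A' : Type} [Fintype A] [Fintype A'] (d : A → D) (d' : A' → D)
      (h : A → A' → ℝ) (a : A) (a' : A'),
      op b d (fun u => op b' d' (fun v => h u v) a') a =
        op b' d' (fun v => op b d (fun u => h u v) a) a' := by
    intro b b' A A' _ _ d d' h a a'
    unfold op
    split_ifs
    · unfold avg
      rw [← Finset.sum_div, ← Finset.sum_div, Finset.sum_comm, div_div, div_div,
        mul_comm ((cls d a).card : ℝ)]
    · rfl
    · rfl
    · rfl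
  unfold rs
  rw [k1 (fun x y w => op r.2.1 dy (fun y' => op r.2.2 dw (fun w' => g x y' w') w) y) φ,
    k2 (fun x y w => op r.2.2 dw (fun w' => g x y w') w)
      (fun x y w => op r.1 dx (fun x' => φ x' y w) x),
    k3 g (fun x y w => op r.2.1 dy (fun y' => op r.1 dx (fun x' => φ x' y' w) x) y)]
  refine ex_congr fun x => ex_congr fun y => ex_congr fun w => ?_
  congr 1
  -- reorder
  calc op r.2.2 dw (fun w' => op r.2.1 dy (fun y' => op r.1 dx (fun x' => φ x' y' w') x) y) w
      = op r.2.2 dw (fun w' => op r.1 dx (fun x' => op r.2.1 dy (fun y' => φ x' y' w') y) x) w := by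
        congr 1
        funext w'
        exact comm2 _ _ dy dx (fun y' x' => φ x' y' w') y x
    _ = op r.1 dx (fun x' => op r.2.2 dw (fun w' => op r.2.1 dy (fun y' => φ x' y' w') y) w) x :=
        comm2 _ _ dw dx (fun w' x' => op r.2.1 dy (fun y' => φ x' y' w') y) w x
    _ = op r.1 dx (fun x' => op r.2.1 dy (fun y' => op r.2.2 dw (fun w' => φ x' y' w') w) y) x := by
        congr 1
        funext x'
        exact comm2 _ _ dw dy (fun w' y' => φ x' y' w') w y

/-- **The law of the resampled planted triangle.** -/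
theorem law (φ : Fin L → Fin L → Fin (2 * L) → ℝ) :
    ex (fun x => ex fun y => rs r dx dy dw φ x y (sm x y)) =
      ex (fun x => ex fun y => ex fun w => rs r dx dy dw pl x y w * φ x y w) := by
  rw [rs_adj]
  refine ex_congr fun x => ex_congr fun y => ?_
  unfold ex pl
  have hL : (0 : ℝ) < L := by
    have := x.pos
    exact_mod_cast this
  rw [Finset.sum_eq_single (sm x y)]
  · rw [if_pos (show (x : ℕ) + (y : ℕ) = (sm x y : ℕ) from rfl), Fintype.card_fin]
    push_cast
    field_simp
  · intro w _ hw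
    rw [if_neg, zero_mul]
    intro h
    exact hw (Fin.ext h.symm)
  · intro h
    exact absurd (Finset.mem_univ _) h

end dens

end Helper36.DG
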