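import Pool.Agent.Helper53.DG.Count
import Pool.Agent.Helper94.DG.Defs2

/-!
# DG: G4, counting with weights
-/

set_option autoImplicit false

open Finset

namespace Helper36.DG

open Pool.Agent.Helper94.DG

theorem pi_sum {ι : Type*} [Fintype ι] (G : Fin 4 → ι → ℝ) :
    ∑ T : Fin 4 → ι, ∏ q, G q (T q) = ∏ q, ∑ T, G q T := by
  classical
  rw [Finset.prod_univ_sum, Fintype.piFinset_univ]

theorem prod_ite_fun (p : Fin 4) (x : Fin 4 → ℝ) : ∏ q : Fin 4, (if q = p then x q else 1) = x p := by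
  rw [Finset.prod_ite_eq' univ p x, if_pos (Finset.mem_univ p)]

theorem one_bd {S F ε a : ℝ} (hS : 0 ≤ S) (hF : S ≤ F) (hε : 0 ≤ ε) (ha : 0 ≤ a)
    (h : S ≤ a * ε ^ 2) : S ≤ (1 + F) * (ε * √a) := by
  have hF0 : 0 ≤ F := hS.trans hF
  have hs : √a ^ 2 = a := Real.sq_sqrt ha
  refine (pow_le_pow_iff_left₀ hS (by positivity) two_ne_zero).1 ?_
  have h1 : S ^ 2 ≤ (a * ε ^ 2) * F := by
    rw [sq]
    exact mul_le_mul h hF hS (by positivity)
  have h2 : ((1 + F) * (ε * √a)) ^ 2 = (a * ε ^ 2) * (1 + F) ^ 2 := by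
    rw [mul_pow, mul_pow, hs]
    ring
  rw [h2]
  refine h1.trans (mul_le_mul_of_nonneg_left ?_ (by positivity))
  nlinarith

theorem two_bd {S F ε a b : ℝ} (hS : 0 ≤ S) (hF : S ≤ F) (hε : 0 ≤ ε) (ha : 0 ≤ a) (hb : 0 ≤ b)
    (h : S ≤ a * ε ^ 2) (h' : S ≤ b * ε ^ 2) : S ≤ (1 + F) * (ε * √a) * (ε * √b) := by
  have hF0 : 0 ≤ F := hS.trans hF
  have hs : √a ^ 2 = a := Real.sq_sqrt ha
  have hs' : √b ^ 2 = b := Real.sq_sqrt hb
  have h3 : S ≤ (ε * √a) * (ε * √b) := by
    refine (pow_le_pow_iff_left₀ hS (by positivity) two_ne_zero).1 ?_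
    have h1 : S ^ 2 ≤ (a * ε ^ 2) * (b * ε ^ 2) := by
      rw [sq]
      exact mul_le_mul h h' hS (by positivity)
    have h2 : ((ε * √a) * (ε * √b)) ^ 2 = (a * ε ^ 2) * (b * ε ^ 2) := by
      rw [mul_pow, mul_pow, mul_pow, hs, hs']
      ring
    rw [h2]
    exact h1
  refine h3.trans ?_
  have h4 : 0 ≤ (ε * √a) * (ε * √b) := by positivity
  nlinarith [mul_nonneg hF0 h4]

/-- one part -/
theorem part_le {ι : Type*} [Fintype ι] (g u v w : ι → ℝ) (h0 : ∀ T, 0 ≤ g T)
    (hu : ∀ T, u T = 0 ∨ u T = 1) (hv : ∀ T, v T = 0 ∨ v T = 1) (hw : ∀ T, w T = 0 ∨ w T = 1)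
    {F ε a b c : ℝ} (hε : 0 ≤ ε) (ha : 0 ≤ a) (hb : 0 ≤ b) (hc : 0 ≤ c)
    (hF : ∑ T, g T ≤ F) (hA : ∑ T, g T * u T ≤ a * ε ^ 2) (hB : ∑ T, g T * v T ≤ b * ε ^ 2)
    (hC : ∑ T, g T * w T ≤ c * ε ^ 2)
    (hABC : ∑ T, g T * u T * v T * w T ≤ ε ^ 3 * √(a * b * c))
    (p r s : Prop) [Decidable p] [Decidable r] [Decidable s] :
    ∑ T, g T * (if p then u T else 1) * (if r then v T else 1) * (if s then w T else 1) ≤
      (1 + F) * (if p then ε * √a else 1) * (if r then ε * √b else 1) *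
        (if s then ε * √c else 1) := by
  have u0 : ∀ T, 0 ≤ u T := fun T => by rcases hu T with h | h <;> rw [h] <;> norm_num
  have v0 : ∀ T, 0 ≤ v T := fun T => by rcases hv T with h | h <;> rw [h] <;> norm_num
  have w0 : ∀ T, 0 ≤ w T := fun T => by rcases hw T with h | h <;> rw [h] <;> norm_num
  have u1 : ∀ T, u T ≤ 1 := fun T => by rcases hu T with h | h <;> rw [h] <;> norm_num
  have v1 : ∀ T, v T ≤ 1 := fun T => by rcases hv T with h | h <;> rw [h] <;> norm_num
  have w1 : ∀ T, w T ≤ 1 := fun T => by rcases hw T with h | h <;> rw [h] <;> norm_num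
  have hF0 : 0 ≤ F := (Finset.sum_nonneg fun T _ => h0 T).trans hF
  have su : ∑ T, g T * u T ≤ F :=
    (Finset.sum_le_sum fun T _ => mul_le_of_le_one_right (h0 T) (u1 T)).trans hF
  have sv : ∑ T, g T * v T ≤ F :=
    (Finset.sum_le_sum fun T _ => mul_le_of_le_one_right (h0 T) (v1 T)).trans hF
  have sw : ∑ T, g T * w T ≤ F :=
    (Finset.sum_le_sum fun T _ => mul_le_of_le_one_right (h0 T) (w1 T)).trans hF
  have pu : 0 ≤ ∑ T, g T * u T := Finset.sum_nonneg fun T _ => mul_nonneg (h0 T) (u0 T)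
  have pv : 0 ≤ ∑ T, g T * v T := Finset.sum_nonneg fun T _ => mul_nonneg (h0 T) (v0 T)
  have pw : 0 ≤ ∑ T, g T * w T := Finset.sum_nonneg fun T _ => mul_nonneg (h0 T) (w0 T)
  by_cases hp : p
  · by_cases hr : r
    · by_cases hs : s
      · simp only [if_pos hp, if_pos hr, if_pos hs]
        refine hABC.trans ?_
        rw [Real.sqrt_mul (mul_nonneg ha hb), Real.sqrt_mul ha]
        have h4 : 0 ≤ (ε * √a) * (ε * √b) * (ε * √c) := by positivity
        nlinarith [mul_nonneg hF0 h4]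
      · simp only [if_pos hp, if_pos hr, if_neg hs, mul_one]
        have q0 : 0 ≤ ∑ T, g T * u T * v T :=
          Finset.sum_nonneg fun T _ => mul_nonneg (mul_nonneg (h0 T) (u0 T)) (v0 T)
        have q1 : ∑ T, g T * u T * v T ≤ ∑ T, g T * u T :=
          Finset.sum_le_sum fun T _ => mul_le_of_le_one_right (mul_nonneg (h0 T) (u0 T)) (v1 T)
        have q2 : ∑ T, g T * u T * v T ≤ ∑ T, g T * v T :=
          Finset.sum_le_sum fun T _ => mul_le_mul_of_nonneg_right
            (mul_le_of_le_one_right (h0 T) (u1 T)) (v0 T)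
        exact two_bd q0 (q1.trans su) hε ha hb (q1.trans hA) (q2.trans hB)
    · by_cases hs : s
      · simp only [if_pos hp, if_neg hr, if_pos hs, mul_one]
        have q0 : 0 ≤ ∑ T, g T * u T * w T :=
          Finset.sum_nonneg fun T _ => mul_nonneg (mul_nonneg (h0 T) (u0 T)) (w0 T)
        have q1 : ∑ T, g T * u T * w T ≤ ∑ T, g T * u T :=
          Finset.sum_le_sum fun T _ => mul_le_of_le_one_right (mul_nonneg (h0 T) (u0 T)) (w1 T)
        have q2 : ∑ T, g T * u T * w T ≤ ∑ T, g T * w T :=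
          Finset.sum_le_sum fun T _ => mul_le_mul_of_nonneg_right
            (mul_le_of_le_one_right (h0 T) (u1 T)) (w0 T)
        exact two_bd q0 (q1.trans su) hε ha hc (q1.trans hA) (q2.trans hC)
      · simp only [if_pos hp, if_neg hr, if_neg hs, mul_one]
        exact one_bd pu su hε ha hA
  · by_cases hr : r
    · by_cases hs : s
      · simp only [if_neg hp, if_pos hr, if_pos hs, mul_one]
        have q0 : 0 ≤ ∑ T, g T * v T * w T :=
          Finset.sum_nonneg fun T _ => mul_nonneg (mul_nonneg (h0 T) (v0 T)) (w0 T)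
        have q1 : ∑ T, g T * v T * w T ≤ ∑ T, g T * v T :=
          Finset.sum_le_sum fun T _ => mul_le_of_le_one_right (mul_nonneg (h0 T) (v0 T)) (w1 T)
        have q2 : ∑ T, g T * v T * w T ≤ ∑ T, g T * w T :=
          Finset.sum_le_sum fun T _ => mul_le_mul_of_nonneg_right
            (mul_le_of_le_one_right (h0 T) (v1 T)) (w0 T)
        exact two_bd q0 (q1.trans sv) hε hb hc (q1.trans hB) (q2.trans hC)
      · simp only [if_neg hp, if_pos hr, if_neg hs, mul_one]
        exact one_bd pv sv hε hb hB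
    · by_cases hs : s
      · simp only [if_neg hp, if_neg hr, if_pos hs, mul_one]
        exact one_bd pw sw hε hc hC
      · simp only [if_neg hp, if_neg hr, if_neg hs, mul_one]
        linarith

section main

variable {m : ℕ}

open Classical in
theorem line01 (g : Tri m → ℝ) {τ : ℝ} (hτ : 0 ≤ τ) (h : ∀ i j, ∑ k, g (i, j, k) ≤ τ)
    (A : Fin m → Fin m → Prop) (a : ℕ)
    (ha : (univ.filter fun e : Fin m × Fin m => A e.1 e.2).card ≤ a) :
    ∑ T : Tri m, g T * (if A T.1 T.2.1 then 1 else 0) ≤ a * τ := by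
  calc ∑ T : Tri m, g T * (if A T.1 T.2.1 then 1 else 0)
      = ∑ e : Fin m × Fin m, (if A e.1 e.2 then ∑ k, g (e.1, e.2, k) else 0) := by
        rw [Fintype.sum_prod_type, Fintype.sum_prod_type]
        refine Finset.sum_congr rfl fun i _ => ?_
        rw [Fintype.sum_prod_type]
        refine Finset.sum_congr rfl fun j _ => ?_
        by_cases hA : A i j
        · simp only [if_pos hA, mul_one]
        · simp only [if_neg hA, mul_zero, Finset.sum_const_zero]
    _ ≤ ∑ e : Fin m × Fin m, (if A e.1 e.2 then τ else 0) := by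
        refine Finset.sum_le_sum fun e _ => ?_
        by_cases hA : A e.1 e.2
        · rw [if_pos hA, if_pos hA]
          exact h _ _
        · rw [if_neg hA, if_neg hA]
    _ = (univ.filter fun e : Fin m × Fin m => A e.1 e.2).card * τ := by
        rw [← Finset.sum_filter, Finset.sum_const, nsmul_eq_mul]
    _ ≤ a * τ := mul_le_mul_of_nonneg_right (by exact_mod_cast ha) hτ

open Classical in
theorem line12 (g : Tri m → ℝ) {τ : ℝ} (hτ : 0 ≤ τ) (h : ∀ j k, ∑ i, g (i, j, k) ≤ τ)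
    (B : Fin m → Fin m → Prop) (b : ℕ)
    (hb : (univ.filter fun e : Fin m × Fin m => B e.1 e.2).card ≤ b) :
    ∑ T : Tri m, g T * (if B T.2.1 T.2.2 then 1 else 0) ≤ b * τ := by
  calc ∑ T : Tri m, g T * (if B T.2.1 T.2.2 then 1 else 0)
      = ∑ e : Fin m × Fin m, (if B e.1 e.2 then ∑ i, g (i, e.1, e.2) else 0) := by
        rw [Fintype.sum_prod_type, Finset.sum_comm, Fintype.sum_prod_type, Fintype.sum_prod_type]
        refine Finset.sum_congr rfl fun j _ => ?_
        refine Finset.sum_congr rfl fun k _ => ?_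
        by_cases hA : B j k
        · simp only [if_pos hA, mul_one]
        · simp only [if_neg hA, mul_zero, Finset.sum_const_zero]
    _ ≤ ∑ e : Fin m × Fin m, (if B e.1 e.2 then τ else 0) := by
        refine Finset.sum_le_sum fun e _ => ?_
        by_cases hA : B e.1 e.2
        · rw [if_pos hA, if_pos hA]
          exact h _ _
        · rw [if_neg hA, if_neg hA]
    _ = (univ.filter fun e : Fin m × Fin m => B e.1 e.2).card * τ := by
        rw [← Finset.sum_filter, Finset.sum_const, nsmul_eq_mul]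
    _ ≤ b * τ := mul_le_mul_of_nonneg_right (by exact_mod_cast hb) hτ

open Classical in
theorem line02 (g : Tri m → ℝ) {τ : ℝ} (hτ : 0 ≤ τ) (h : ∀ i k, ∑ j, g (i, j, k) ≤ τ)
    (C : Fin m → Fin m → Prop) (c : ℕ)
    (hc : (univ.filter fun e : Fin m × Fin m => C e.1 e.2).card ≤ c) :
    ∑ T : Tri m, g T * (if C T.1 T.2.2 then 1 else 0) ≤ c * τ := by
  calc ∑ T : Tri m, g T * (if C T.1 T.2.2 then 1 else 0)
      = ∑ e : Fin m × Fin m, (if C e.1 e.2 then ∑ j, g (e.1, j, e.2) else 0) := by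
        rw [Fintype.sum_prod_type, Fintype.sum_prod_type]
        refine Finset.sum_congr rfl fun i _ => ?_
        rw [Fintype.sum_prod_type, Finset.sum_comm]
        refine Finset.sum_congr rfl fun k _ => ?_
        by_cases hA : C i k
        · simp only [if_pos hA, mul_one]
        · simp only [if_neg hA, mul_zero, Finset.sum_const_zero]
    _ ≤ ∑ e : Fin m × Fin m, (if C e.1 e.2 then τ else 0) := by
        refine Finset.sum_le_sum fun e _ => ?_
        by_cases hA : C e.1 e.2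
        · rw [if_pos hA, if_pos hA]
          exact h _ _
        · rw [if_neg hA, if_neg hA]
    _ = (univ.filter fun e : Fin m × Fin m => C e.1 e.2).card * τ := by
        rw [← Finset.sum_filter, Finset.sum_const, nsmul_eq_mul]
    _ ≤ c * τ := mul_le_mul_of_nonneg_right (by exact_mod_cast hc) hτ

open Classical in
theorem tri_all (g : Tri m → ℝ) {κ : ℝ} (hκ : 0 ≤ κ) (h : ∀ T, g T ≤ κ)
    (A B C : Fin m → Fin m → Prop) (a b c : ℕ)
    (ha : (univ.filter fun e : Fin m × Fin m => A e.1 e.2).card ≤ a)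
    (hb : (univ.filter fun e : Fin m × Fin m => B e.1 e.2).card ≤ b)
    (hc : (univ.filter fun e : Fin m × Fin m => C e.1 e.2).card ≤ c) :
    ∑ T : Tri m, g T * (if A T.1 T.2.1 then 1 else 0) * (if B T.2.1 T.2.2 then 1 else 0) *
      (if C T.1 T.2.2 then 1 else 0) ≤ κ * √((a : ℝ) * b * c) := by
  set A' := univ.filter fun e : Fin m × Fin m => A e.1 e.2
  set B' := univ.filter fun e : Fin m × Fin m => B e.1 e.2
  set C' := univ.filter fun e : Fin m × Fin m => C e.1 e.2
  have h1 := Pool.Agent.Helper53.DG.card_E123 A' B' C'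
  calc ∑ T : Tri m, g T * (if A T.1 T.2.1 then 1 else 0) * (if B T.2.1 T.2.2 then 1 else 0) *
        (if C T.1 T.2.2 then 1 else 0)
      ≤ ∑ T : Tri m, if T ∈ (Pool.Agent.Helper53.DG.E1 A' ∩ Pool.Agent.Helper53.DG.E2 B') ∩
          Pool.Agent.Helper53.DG.E3 C' then κ else 0 := by
        refine Finset.sum_le_sum fun T _ => ?_
        by_cases hA : A T.1 T.2.1
        · by_cases hB : B T.2.1 T.2.2
          · by_cases hC : C T.1 T.2.2
            · have hT : T ∈ (Pool.Agent.Helper53.DG.E1 A' ∩ Pool.Agent.Helper53.DG.E2 B') ∩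
                  Pool.Agent.Helper53.DG.E3 C' := by
                simp only [Pool.Agent.Helper53.DG.E1, Pool.Agent.Helper53.DG.E2,
                  Pool.Agent.Helper53.DG.E3, mem_inter, mem_filter, mem_univ, true_and, A', B', C']
                exact ⟨⟨hA, hB⟩, hC⟩
              rw [if_pos hA, if_pos hB, if_pos hC, if_pos hT, mul_one, mul_one, mul_one]
              exact h T
            · rw [if_neg hC, mul_zero]
              split_ifs
              · exact hκ
              · exact le_rfl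
          · rw [if_neg hB, mul_zero, zero_mul]
            split_ifs
            · exact hκ
            · exact le_rfl
        · rw [if_neg hA, mul_zero, zero_mul, zero_mul]
          split_ifs
          · exact hκ
          · exact le_rfl
    _ = ((Pool.Agent.Helper53.DG.E1 A' ∩ Pool.Agent.Helper53.DG.E2 B') ∩
          Pool.Agent.Helper53.DG.E3 C').card * κ := by
        rw [← Finset.sum_filter, Finset.sum_const, nsmul_eq_mul, Finset.filter_mem_eq_inter,
          Finset.univ_inter]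
    _ ≤ √((a : ℝ) * b * c) * κ := by
        refine mul_le_mul_of_nonneg_right (h1.trans (Real.sqrt_le_sqrt ?_)) hκ
        have ha' : (A'.card : ℝ) ≤ a := by exact_mod_cast ha
        have hb' : (B'.card : ℝ) ≤ b := by exact_mod_cast hb
        have hc' : (C'.card : ℝ) ≤ c := by exact_mod_cast hc
        exact mul_le_mul (mul_le_mul ha' hb' (by positivity) (by positivity)) hc' (by positivity)
          (by positivity)
    _ = κ * √((a : ℝ) * b * c) := mul_comm _ _

theorem no_of_zero {P : Fin m → Fin m → Prop} [DecidablePred fun e : Fin m × Fin m => P e.1 e.2]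
    (h : (univ.filter fun e : Fin m × Fin m => P e.1 e.2).card ≤ 0) (i j : Fin m) : ¬ P i j := by
  intro hP
  have h1 := Finset.card_eq_zero.1 (Nat.le_zero.1 h)
  have h2 : (i, j) ∈ univ.filter fun e : Fin m × Fin m => P e.1 e.2 := by
    rw [Finset.mem_filter]
    exact ⟨Finset.mem_univ _, hP⟩
  rw [h1] at h2
  exact absurd h2 (Finset.notMem_empty _)

open Classical in
theorem meet_sqrt (hm : 0 < m) (g : Fin 4 → Tri m → ℝ) (F : Fin 4 → ℝ) (h K : ℝ)
    (hh : 1 ≤ h) (hK : 1 ≤ K)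
    (h0 : ∀ q T, 0 ≤ g q T) (hF : ∀ q, ∑ T, g q T ≤ F q)
    (hg : ∀ q T, g q T ≤ h * K / (m : ℝ) ^ 3)
    (h01 : ∀ q i j, ∑ k, g q (i, j, k) ≤ h * (m + K) / (m : ℝ) ^ 3)
    (h12 : ∀ q j k, ∑ i, g q (i, j, k) ≤ h * (m + K) / (m : ℝ) ^ 3)
    (h02 : ∀ q i k, ∑ j, g q (i, j, k) ≤ h * (m + K) / (m : ℝ) ^ 3)
    (A B C : Fin 4 → Fin m → Fin m → Prop)
    (a b c : ℕ) (ha : ∀ q, (univ.filter fun e : Fin m × Fin m => A q e.1 e.2).card ≤ a)
    (hb : ∀ q, (univ.filter fun e : Fin m × Fin m => B q e.1 e.2).card ≤ b)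
    (hc : ∀ q, (univ.filter fun e : Fin m × Fin m => C q e.1 e.2).card ≤ c) :
    ∑ T : Fin 4 → Tri m, (∏ q, g q (T q)) * (if Meets A B C T then 1 else 0) ≤
      512 * h ^ 3 * K * √((a : ℝ) * b * c) / (m : ℝ) ^ 3 * ∏ q, (1 + F q) := by
  have hm' : (1 : ℝ) ≤ m := by exact_mod_cast hm
  have hm0 : (0 : ℝ) < m := by linarith
  have F0 : ∀ q, 0 ≤ F q := fun q => (Finset.sum_nonneg fun T _ => h0 q T).trans (hF q)
  have P0 : 0 ≤ ∏ q, (1 + F q) := Finset.prod_nonneg fun q _ => by linarith [F0 q]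
  have g0 : ∀ T : Fin 4 → Tri m, 0 ≤ ∏ q, g q (T q) := fun T =>
    Finset.prod_nonneg fun q _ => h0 _ _
  have Z : (∀ T : Fin 4 → Tri m, ¬ Meets A B C T) →
      ∑ T : Fin 4 → Tri m, (∏ q, g q (T q)) * (if Meets A B C T then 1 else 0) ≤
      512 * h ^ 3 * K * √((a : ℝ) * b * c) / (m : ℝ) ^ 3 * ∏ q, (1 + F q) := by
    intro hZ
    rw [Finset.sum_eq_zero fun T _ => by rw [if_neg (hZ T), mul_zero]]
    positivity
  by_cases hKm : (m : ℝ) ^ 3 < K
  · -- the trivial case
    by_cases a0 : a = 0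
    · subst a0
      exact Z fun T hT => hT.1.elim fun q hq => no_of_zero (ha q) _ _ hq
    by_cases b0 : b = 0
    · subst b0
      exact Z fun T hT => hT.2.1.elim fun q hq => no_of_zero (hb q) _ _ hq
    by_cases c0 : c = 0
    · subst c0
      exact Z fun T hT => hT.2.2.elim fun q hq => no_of_zero (hc q) _ _ hq
    have h1 : ∑ T : Fin 4 → Tri m, (∏ q, g q (T q)) * (if Meets A B C T then 1 else 0) ≤
        ∏ q, (1 + F q) := by
      calc ∑ T : Fin 4 → Tri m, (∏ q, g q (T q)) * (if Meets A B C T then 1 else 0)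
          ≤ ∑ T : Fin 4 → Tri m, (∏ q, g q (T q)) := by
            refine Finset.sum_le_sum fun T _ => mul_le_of_le_one_right (g0 T) ?_
            split_ifs <;> norm_num
        _ = ∏ q, ∑ T, g q T := pi_sum g
        _ ≤ ∏ q, (1 + F q) := Finset.prod_le_prod
            (fun q _ => Finset.sum_nonneg fun T _ => h0 q T) fun q _ => by linarith [hF q]
    refine h1.trans (le_mul_of_one_le_left P0 ?_)
    have ha1 : (1 : ℝ) ≤ a := by exact_mod_cast Nat.one_le_iff_ne_zero.2 a0
    have hb1 : (1 : ℝ) ≤ b := by exact_mod_cast Nat.one_le_iff_ne_zero.2 b0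
    have hc1 : (1 : ℝ) ≤ c := by exact_mod_cast Nat.one_le_iff_ne_zero.2 c0
    have hs : 1 ≤ √((a : ℝ) * b * c) := by
      rw [Real.one_le_sqrt]
      exact one_le_mul_of_one_le_of_one_le (one_le_mul_of_one_le_of_one_le ha1 hb1) hc1
    rw [le_div_iff₀ (by positivity), one_mul]
    have hh3 : 1 ≤ h ^ 3 := one_le_pow₀ hh
    calc (m : ℝ) ^ 3 ≤ K := hKm.le
      _ = 1 * 1 * K * 1 := by ring
      _ ≤ 512 * h ^ 3 * K * √((a : ℝ) * b * c) := by
        gcongr
        norm_num
  rw [not_lt] at hKm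
  obtain ⟨r, hr0, hr3⟩ : ∃ r : ℝ, 0 ≤ r ∧ r ^ 3 = K :=
    ⟨K ^ (((3 : ℕ) : ℝ)⁻¹), by positivity, Real.rpow_inv_natCast_pow (by linarith) (by norm_num)⟩
  have hr1 : 1 ≤ r := by
    by_contra hlt
    rw [not_le] at hlt
    have := pow_lt_one₀ hr0 hlt (n := 3) (by norm_num)
    linarith
  have hrm : r ≤ m := by
    refine (pow_le_pow_iff_left₀ hr0 hm0.le (n := 3) (by norm_num)).1 ?_
    rw [hr3]
    exact hKm
  set ε : ℝ := 2 * h * r / m with hεd
  have hε : 0 ≤ ε := by positivity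
  have hε3 : ε ^ 3 = 8 * h ^ 3 * K / (m : ℝ) ^ 3 := by
    rw [hεd, div_pow, mul_pow, mul_pow, hr3]
    norm_num
  have hτ0 : 0 ≤ h * (m + K) / (m : ℝ) ^ 3 := by positivity
  have hτ : h * (m + K) / (m : ℝ) ^ 3 ≤ ε ^ 2 := by
    rw [hεd, div_pow, div_le_div_iff₀ (by positivity) (by positivity), ← hr3]
    have k1 : (m : ℝ) + r ^ 3 ≤ 2 * (r ^ 2 * m) := by
      have : r ^ 3 ≤ r ^ 2 * m := by
        calc r ^ 3 = r ^ 2 * r := by ring
          _ ≤ r ^ 2 * m := mul_le_mul_of_nonneg_left hrm (by positivity)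
      have k2 : (m : ℝ) ≤ r ^ 2 * m := le_mul_of_one_le_left hm0.le (one_le_pow₀ hr1)
      linarith
    calc h * (m + r ^ 3) * (m : ℝ) ^ 2 ≤ h * (2 * (r ^ 2 * m)) * (m : ℝ) ^ 2 := by gcongr
      _ = (2 * h * r ^ 2) * (m : ℝ) ^ 3 * 1 := by ring
      _ ≤ (2 * h * r ^ 2) * (m : ℝ) ^ 3 * (2 * h) := by
          refine mul_le_mul_of_nonneg_left ?_ (by positivity)
          linarith
      _ = (2 * h * r) ^ 2 * (m : ℝ) ^ 3 := by ring
  have hκ0 : 0 ≤ h * K / (m : ℝ) ^ 3 := by positivity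
  have hκ : h * K / (m : ℝ) ^ 3 ≤ ε ^ 3 := by
    rw [hε3]
    gcongr
    have : h ≤ h ^ 3 := le_self_pow₀ hh (by norm_num)
    linarith [pow_nonneg (zero_le_one.trans hh) 3]
  -- one choice
  have one : ∀ p r s : Fin 4, ∑ T : Fin 4 → Tri m, (∏ q, g q (T q)) *
      (if A p (T p).1 (T p).2.1 then 1 else 0) * (if B r (T r).2.1 (T r).2.2 then 1 else 0) *
      (if C s (T s).1 (T s).2.2 then 1 else 0) ≤
      8 * h ^ 3 * K * √((a : ℝ) * b * c) / (m : ℝ) ^ 3 * ∏ q, (1 + F q) := by
    intro p r s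
    let G : Fin 4 → Tri m → ℝ := fun q T => g q T *
      (if q = p then (if A q T.1 T.2.1 then 1 else 0) else 1) *
      (if q = r then (if B q T.2.1 T.2.2 then 1 else 0) else 1) *
      (if q = s then (if C q T.1 T.2.2 then 1 else 0) else 1)
    have e1 : ∀ T : Fin 4 → Tri m, (∏ q, g q (T q)) *
        (if A p (T p).1 (T p).2.1 then 1 else 0) * (if B r (T r).2.1 (T r).2.2 then 1 else 0) *
        (if C s (T s).1 (T s).2.2 then 1 else 0) = ∏ q, G q (T q) := by
      intro T
      simp only [G]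
      rw [Finset.prod_mul_distrib, Finset.prod_mul_distrib, Finset.prod_mul_distrib,
        prod_ite_fun p (fun q => if A q (T q).1 (T q).2.1 then 1 else 0),
        prod_ite_fun r (fun q => if B q (T q).2.1 (T q).2.2 then 1 else 0),
        prod_ite_fun s (fun q => if C q (T q).1 (T q).2.2 then 1 else 0)]
    rw [Finset.sum_congr rfl fun T _ => e1 T, pi_sum G]
    have ite01 : ∀ (P : Prop) [Decidable P], (if P then (1 : ℝ) else 0) = 0 ∨
        (if P then (1 : ℝ) else 0) = 1 := by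
      intro P _
      by_cases hP : P
      · right
        rw [if_pos hP]
      · left
        rw [if_neg hP]
    have e2 : ∀ q, ∑ T, G q T ≤ (1 + F q) * (if q = p then ε * √(a : ℝ) else 1) *
        (if q = r then ε * √(b : ℝ) else 1) * (if q = s then ε * √(c : ℝ) else 1) := by
      intro q
      refine part_le (g q) (fun T => if A q T.1 T.2.1 then 1 else 0)
        (fun T => if B q T.2.1 T.2.2 then 1 else 0) (fun T => if C q T.1 T.2.2 then 1 else 0)
        (h0 q) (fun T => ite01 _) (fun T => ite01 _) (fun T => ite01 _) hε (by positivity)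
        (by positivity) (by positivity) (hF q) ?_ ?_ ?_ ?_ (q = p) (q = r) (q = s)
      · exact (line01 (g q) hτ0 (h01 q) (A q) a (ha q)).trans
          (mul_le_mul_of_nonneg_left hτ (by positivity))
      · exact (line12 (g q) hτ0 (h12 q) (B q) b (hb q)).trans
          (mul_le_mul_of_nonneg_left hτ (by positivity))
      · exact (line02 (g q) hτ0 (h02 q) (C q) c (hc q)).trans
          (mul_le_mul_of_nonneg_left hτ (by positivity))
      · exact (tri_all (g q) hκ0 (hg q) (A q) (B q) (C q) a b c (ha q) (hb q) (hc q)).trans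
          (mul_le_mul_of_nonneg_right hκ (by positivity))
    refine (Finset.prod_le_prod (fun q _ => Finset.sum_nonneg fun T _ => ?_)
      fun q _ => e2 q).trans (le_of_eq ?_)
    · have i0 : ∀ (P Q : Prop) [Decidable P] [Decidable Q],
          (0 : ℝ) ≤ if P then (if Q then 1 else 0) else 1 := by
        intro P Q _ _
        split_ifs <;> norm_num
      exact mul_nonneg (mul_nonneg (mul_nonneg (h0 q T) (i0 _ _)) (i0 _ _)) (i0 _ _)
    · rw [Finset.prod_mul_distrib, Finset.prod_mul_distrib, Finset.prod_mul_distrib,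
        prod_ite_fun p (fun _ => ε * √(a : ℝ)), prod_ite_fun r (fun _ => ε * √(b : ℝ)),
        prod_ite_fun s (fun _ => ε * √(c : ℝ)), Real.sqrt_mul (by positivity),
        Real.sqrt_mul (by positivity)]
      calc (∏ q, (1 + F q)) * (ε * √(a : ℝ)) * (ε * √(b : ℝ)) * (ε * √(c : ℝ))
          = ε ^ 3 * (√(a : ℝ) * √(b : ℝ) * √(c : ℝ)) * ∏ q, (1 + F q) := by ring
        _ = _ := by
          rw [hε3]
          ring
  -- all choices
  have pt : ∀ T : Fin 4 → Tri m, (∏ q, g q (T q)) * (if Meets A B C T then 1 else 0) ≤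
      ∑ p : Fin 4, ∑ r : Fin 4, ∑ s : Fin 4, (∏ q, g q (T q)) *
      (if A p (T p).1 (T p).2.1 then 1 else 0) * (if B r (T r).2.1 (T r).2.2 then 1 else 0) *
      (if C s (T s).1 (T s).2.2 then 1 else 0) := by
    intro T
    have i1 : ∀ (P Q R : Prop) [Decidable P] [Decidable Q] [Decidable R],
        0 ≤ (∏ q, g q (T q)) * (if P then 1 else 0) * (if Q then 1 else 0) *
          (if R then 1 else 0) := by
      intro P Q R _ _ _
      have j : ∀ (P : Prop) [Decidable P], (0 : ℝ) ≤ if P then 1 else 0 := by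
        intro P _
        split_ifs <;> norm_num
      exact mul_nonneg (mul_nonneg (mul_nonneg (g0 T) (j _)) (j _)) (j _)
    by_cases hM : Meets A B C T
    · obtain ⟨⟨p, hp⟩, ⟨r, hr⟩, ⟨s, hs⟩⟩ := hM
      rw [if_pos (show Meets A B C T from ⟨⟨p, hp⟩, ⟨r, hr⟩, ⟨s, hs⟩⟩)]
      refine le_trans ?_ (Finset.single_le_sum (fun p _ => Finset.sum_nonneg fun r _ =>
        Finset.sum_nonneg fun s _ => i1 _ _ _) (Finset.mem_univ p))
      refine le_trans ?_ (Finset.single_le_sum (fun r _ =>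
        Finset.sum_nonneg fun s _ => i1 _ _ _) (Finset.mem_univ r))
      refine le_trans ?_ (Finset.single_le_sum (fun s _ => i1 _ _ _) (Finset.mem_univ s))
      rw [if_pos hp, if_pos hr, if_pos hs, mul_one, mul_one, mul_one]
    · rw [if_neg hM, mul_zero]
      exact Finset.sum_nonneg fun p _ => Finset.sum_nonneg fun r _ =>
        Finset.sum_nonneg fun s _ => i1 _ _ _
  calc ∑ T : Fin 4 → Tri m, (∏ q, g q (T q)) * (if Meets A B C T then 1 else 0)
      ≤ ∑ T : Fin 4 → Tri m, ∑ p : Fin 4, ∑ r : Fin 4, ∑ s : Fin 4, (∏ q, g q (T q)) *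
      (if A p (T p).1 (T p).2.1 then 1 else 0) * (if B r (T r).2.1 (T r).2.2 then 1 else 0) *
      (if C s (T s).1 (T s).2.2 then 1 else 0) := Finset.sum_le_sum fun T _ => pt T
    _ = ∑ p : Fin 4, ∑ r : Fin 4, ∑ s : Fin 4, ∑ T : Fin 4 → Tri m, (∏ q, g q (T q)) *
      (if A p (T p).1 (T p).2.1 then 1 else 0) * (if B r (T r).2.1 (T r).2.2 then 1 else 0) *
      (if C s (T s).1 (T s).2.2 then 1 else 0) := by
        rw [Finset.sum_comm]
        refine Finset.sum_congr rfl fun p _ => ?_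
        rw [Finset.sum_comm]
        refine Finset.sum_congr rfl fun r _ => ?_
        rw [Finset.sum_comm]
    _ ≤ ∑ _p : Fin 4, ∑ _r : Fin 4, ∑ _s : Fin 4,
        8 * h ^ 3 * K * √((a : ℝ) * b * c) / (m : ℝ) ^ 3 * ∏ q, (1 + F q) :=
        Finset.sum_le_sum fun p _ => Finset.sum_le_sum fun r _ =>
          Finset.sum_le_sum fun s _ => one p r s
    _ = 512 * h ^ 3 * K * √((a : ℝ) * b * c) / (m : ℝ) ^ 3 * ∏ q, (1 + F q) := by
        simp only [Finset.sum_const, Finset.card_univ, Fintype.card_fin, nsmul_eq_mul]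
        push_cast
        ring

end main

end Helper36.DG
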