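import Mathlib

/-!
# Averages over finite types, and the second moment of the density
-/

set_option autoImplicit false

open Finset

namespace Helper36.DG

/-- the average over a finite type -/
noncomputable def ex {Ω : Type*} [Fintype Ω] (g : Ω → ℝ) : ℝ := (∑ ω, g ω) / Fintype.card Ω

section basic

variable {Ω Ω' : Type*} [Fintype Ω] [Fintype Ω']

theorem ex_add (g h : Ω → ℝ) : ex (fun ω => g ω + h ω) = ex g + ex h := by
  unfold ex
  rw [Finset.sum_add_distrib, add_div]

theorem ex_sub (g h : Ω → ℝ) : ex (fun ω => g ω - h ω) = ex g - ex h := by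
  unfold ex
  rw [Finset.sum_sub_distrib, sub_div]

theorem ex_mul_left (c : ℝ) (g : Ω → ℝ) : ex (fun ω => c * g ω) = c * ex g := by
  unfold ex
  rw [← Finset.mul_sum, mul_div_assoc]

theorem ex_mul_right (c : ℝ) (g : Ω → ℝ) : ex (fun ω => g ω * c) = ex g * c := by
  unfold ex
  rw [← Finset.sum_mul, div_mul_eq_mul_div]

theorem ex_div (c : ℝ) (g : Ω → ℝ) : ex (fun ω => g ω / c) = ex g / c := by
  simp only [div_eq_mul_inv]
  exact ex_mul_right _ _

theorem ex_sum {ι : Type*} (s : Finset ι) (g : ι → Ω → ℝ) :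
    ex (fun ω => ∑ i ∈ s, g i ω) = ∑ i ∈ s, ex (g i) := by
  unfold ex
  rw [Finset.sum_comm, Finset.sum_div]

theorem ex_const [Nonempty Ω] (c : ℝ) : ex (fun _ : Ω => c) = c := by
  unfold ex
  rw [Finset.sum_const, Finset.card_univ, nsmul_eq_mul]
  have : (Fintype.card Ω : ℝ) ≠ 0 := by
    exact_mod_cast Fintype.card_ne_zero
  field_simp

theorem ex_mono {g h : Ω → ℝ} (hgh : ∀ ω, g ω ≤ h ω) : ex g ≤ ex h := by
  unfold ex
  gcongr with ω _
  exact hgh ω

theorem ex_nonneg {g : Ω → ℝ} (h : ∀ ω, 0 ≤ g ω) : 0 ≤ ex g := by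
  unfold ex
  exact div_nonneg (Finset.sum_nonneg fun ω _ => h ω) (by positivity)

theorem ex_congr {g h : Ω → ℝ} (hgh : ∀ ω, g ω = h ω) : ex g = ex h := by
  rw [show g = h from funext hgh]

theorem ex_prod (g : Ω → Ω' → ℝ) :
    ex (fun p : Ω × Ω' => g p.1 p.2) = ex (fun ω => ex (g ω)) := by
  unfold ex
  rw [Fintype.sum_prod_type, Fintype.card_prod]
  push_cast
  rw [Finset.sum_div, Finset.sum_div]
  refine Finset.sum_congr rfl fun ω _ => ?_
  rw [div_div, mul_comm (Fintype.card Ω : ℝ)]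

theorem ex_comm (g : Ω → Ω' → ℝ) : ex (fun ω => ex (fun ω' => g ω ω')) =
    ex (fun ω' => ex (fun ω => g ω ω')) := by
  unfold ex
  simp only [Finset.sum_div]
  rw [Finset.sum_comm]
  refine Finset.sum_congr rfl fun ω' _ => Finset.sum_congr rfl fun ω _ => ?_
  rw [div_div, div_div, mul_comm (Fintype.card Ω : ℝ)]

theorem ex_equiv (e : Ω ≃ Ω') (g : Ω' → ℝ) : ex (fun ω => g (e ω)) = ex g := by
  unfold ex
  rw [Fintype.card_congr e, Equiv.sum_comp e g]

theorem ex_abs_le [Nonempty Ω] (g : Ω → ℝ) : |ex g| ≤ ex (fun ω => |g ω|) := by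
  unfold ex
  rw [abs_div, abs_of_nonneg (by positivity : (0 : ℝ) ≤ Fintype.card Ω)]
  gcongr
  exact Finset.abs_sum_le_sum_abs _ _

/-- Cauchy and Schwarz -/
theorem ex_abs_le_sqrt [Nonempty Ω] (g : Ω → ℝ) {c : ℝ} (h : ex (fun ω => g ω ^ 2) ≤ c) :
    ex (fun ω => |g ω|) ≤ Real.sqrt c := by
  apply Real.le_sqrt_of_sq_le
  refine le_trans ?_ h
  have hN : (0 : ℝ) < Fintype.card Ω := by exact_mod_cast Fintype.card_pos
  have h1 := sq_sum_le_card_mul_sum_sq (s := (univ : Finset Ω)) (f := fun ω => |g ω|)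
  simp only [sq_abs] at h1
  unfold ex
  rw [div_pow, div_le_div_iff₀ (by positivity) hN, Finset.card_univ] at *
  nlinarith [h1]

theorem ex_prod3 {Ω'' : Type*} [Fintype Ω''] (g : Ω → Ω' → Ω'' → ℝ) :
    ex (fun p : Ω × (Ω' × Ω'') => g p.1 p.2.1 p.2.2) =
      ex (fun a => ex fun b => ex fun c => g a b c) := by
  rw [ex_prod (fun (a : Ω) (q : Ω' × Ω'') => g a q.1 q.2)]
  exact ex_congr fun a => ex_prod (g a)

theorem ex_abs3 {Ω'' : Type*} [Fintype Ω''] [Nonempty Ω] [Nonempty Ω'] [Nonempty Ω'']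
    (g : Ω → Ω' → Ω'' → ℝ) {c : ℝ} (h : ex (fun x => ex fun y => ex fun z => g x y z ^ 2) ≤ c) :
    ex (fun x => ex fun y => ex fun z => |g x y z|) ≤ Real.sqrt c := by
  rw [← ex_prod3 (fun x y z => g x y z ^ 2)] at h
  rw [← ex_prod3 (fun x y z => |g x y z|)]
  exact ex_abs_le_sqrt (fun p : Ω × (Ω' × Ω'') => g p.1 p.2.1 p.2.2) h

end basic

section pi

variable {ι : Type*} [Fintype ι] [DecidableEq ι] {C : Type*} [Fintype C] [Nonempty C]

theorem ex_pi_one (c : ι) (g : C → ℝ) : ex (fun W : ι → C => g (W c)) = ex g := by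
  have h1 : ex (fun W : ι → C => g (W c)) =
      ex (fun p : C × ({j // j ≠ c} → C) => g p.1) := by
    rw [← ex_equiv (Equiv.funSplitAt c C) (fun p : C × ({j // j ≠ c} → C) => g p.1)]
    rfl
  rw [h1, ex_prod (fun (x : C) (_ : {j // j ≠ c} → C) => g x)]
  exact ex_congr fun x => ex_const _

theorem ex_pi_two {c c' : ι} (h : c ≠ c') (g : C → C → ℝ) :
    ex (fun W : ι → C => g (W c) (W c')) = ex (fun x => ex (fun y => g x y)) := by
  have h1 : ex (fun W : ι → C => g (W c) (W c')) =
      ex (fun p : C × ({j // j ≠ c} → C) => g p.1 (p.2 ⟨c', h.symm⟩)) := by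
    rw [← ex_equiv (Equiv.funSplitAt c C)
      (fun p : C × ({j // j ≠ c} → C) => g p.1 (p.2 ⟨c', h.symm⟩))]
    rfl
  rw [h1, ex_prod (fun (x : C) (w : {j // j ≠ c} → C) => g x (w ⟨c', h.symm⟩))]
  exact ex_congr fun x => ex_pi_one _ _

/-- the variance of a sum of independent variables with mean zero -/
theorem ex_sq_sum (D : ι → C → ℝ) (hD : ∀ c, ex (D c) = 0) :
    ex (fun W : ι → C => (∑ c, D c (W c)) ^ 2) = ∑ c, ex (fun x => D c x ^ 2) := by
  have h1 : ∀ W : ι → C, (∑ c, D c (W c)) ^ 2 = ∑ c, ∑ c', D c (W c) * D c' (W c') := by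
    intro W
    rw [sq, Finset.sum_mul_sum]
  rw [ex_congr h1, ex_sum]
  refine Finset.sum_congr rfl fun c _ => ?_
  rw [ex_sum, Finset.sum_eq_single c]
  · rw [ex_pi_one c (fun x => D c x * D c x)]
    exact ex_congr fun x => (sq _).symm
  · intro c' _ hne
    rw [ex_pi_two (Ne.symm hne) (fun x y => D c x * D c' y)]
    have : ∀ x, ex (fun y => D c x * D c' y) = 0 := by
      intro x
      rw [ex_mul_left, hD c', mul_zero]
    rw [ex_congr this, ex_const]
  · intro h
    exact absurd (Finset.mem_univ c) h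

end pi

section second

variable {A B C : Type*} [Fintype A] [Fintype B] [Fintype C] [Nonempty A] [Nonempty B] [Nonempty C]
  {m : ℕ}

/-- **The second moment of the density.** -/
theorem second_moment (hm : 0 < m) {K : ℝ}
    (f : Fin m → Fin m → Fin m → A → B → C → ℝ) (h0 : ∀ i j k x y w, 0 ≤ f i j k x y w)
    (h1 : ∀ i j k x y, ex (fun w => f i j k x y w) = 1)
    (h2 : ∀ i j k w, ex (fun x => ex fun y => f i j k x y w) ≤ 2)
    (h3 : ∀ i j k, ex (fun x => ex fun y => ex fun w => f i j k x y w ^ 2) ≤ 2 * K) :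
    ex (fun X : Fin m × Fin m → A => ex fun Y : Fin m × Fin m → B =>
      ex fun W : Fin m × Fin m → C =>
        ((∑ i, ∑ j, ∑ k, f i j k (X (i, j)) (Y (j, k)) (W (i, k))) / (m : ℝ) ^ 3 - 1) ^ 2) ≤
      2 * K / (m : ℝ) ^ 3 + 2 / (m : ℝ) ^ 2 := by
  classical
  have hm' : (0 : ℝ) < m := by exact_mod_cast hm
  -- conditional second moment
  have c1 : ∀ (X : Fin m × Fin m → A) (Y : Fin m × Fin m → B),
      ex (fun W : Fin m × Fin m → C =>
        ((∑ i, ∑ j, ∑ k, f i j k (X (i, j)) (Y (j, k)) (W (i, k))) / (m : ℝ) ^ 3 - 1) ^ 2) ≤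
      (∑ c : Fin m × Fin m, ex (fun w : C => (∑ j, f c.1 j c.2 (X (c.1, j)) (Y (j, c.2)) w) ^ 2)) /
        (m : ℝ) ^ 6 := by
    intro X Y
    let D : Fin m × Fin m → C → ℝ := fun c w =>
      (∑ j, f c.1 j c.2 (X (c.1, j)) (Y (j, c.2)) w) - m
    have hS : ∀ c : Fin m × Fin m,
        ex (fun w : C => ∑ j, f c.1 j c.2 (X (c.1, j)) (Y (j, c.2)) w) = m := by
      intro c
      rw [ex_sum]
      simp only [h1]
      simp
    have hD : ∀ c, ex (D c) = 0 := by
      intro c
      change ex (fun w : C => (∑ j, f c.1 j c.2 (X (c.1, j)) (Y (j, c.2)) w) - m) = 0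
      rw [ex_sub, hS, ex_const, sub_self]
    have e1 : ∀ W : Fin m × Fin m → C,
        ((∑ i, ∑ j, ∑ k, f i j k (X (i, j)) (Y (j, k)) (W (i, k))) / (m : ℝ) ^ 3 - 1) ^ 2 =
        (∑ c, D c (W c)) ^ 2 / (m : ℝ) ^ 6 := by
      intro W
      have e2 : ∑ c, D c (W c) =
          (∑ i, ∑ j, ∑ k, f i j k (X (i, j)) (Y (j, k)) (W (i, k))) - (m : ℝ) ^ 3 := by
        have e3 : ∑ c : Fin m × Fin m, D c (W c) =
            ∑ c : Fin m × Fin m, (∑ j, f c.1 j c.2 (X (c.1, j)) (Y (j, c.2)) (W c)) -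
              ∑ _c : Fin m × Fin m, (m : ℝ) := by
          rw [← Finset.sum_sub_distrib]
        rw [e3, Fintype.sum_prod_type]
        congr 1
        · refine Finset.sum_congr rfl fun i _ => ?_
          rw [Finset.sum_comm]
        · simp
          ring
      rw [e2]
      field_simp
    rw [ex_congr e1, ex_div, ex_sq_sum D hD]
    gcongr with c _
    change ex (fun w : C => ((∑ j, f c.1 j c.2 (X (c.1, j)) (Y (j, c.2)) w) - m) ^ 2) ≤ _
    have e4 : ∀ w : C, ((∑ j, f c.1 j c.2 (X (c.1, j)) (Y (j, c.2)) w) - m) ^ 2 =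
        (∑ j, f c.1 j c.2 (X (c.1, j)) (Y (j, c.2)) w) ^ 2 -
          ((2 * m) * (∑ j, f c.1 j c.2 (X (c.1, j)) (Y (j, c.2)) w) - (m : ℝ) ^ 2) := by
      intro w
      ring
    rw [ex_congr e4, ex_sub, ex_sub, ex_mul_left, hS, ex_const]
    nlinarith [sq_nonneg (m : ℝ)]
  refine (ex_mono fun X => ex_mono fun Y => c1 X Y).trans ?_
  -- one cell
  have c2 : ∀ c : Fin m × Fin m, ex (fun X : Fin m × Fin m → A => ex fun Y : Fin m × Fin m → B =>
      ex (fun w : C => (∑ j, f c.1 j c.2 (X (c.1, j)) (Y (j, c.2)) w) ^ 2)) ≤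
      m * (2 * K) + (m : ℝ) ^ 2 * 2 := by
    rintro ⟨i, k⟩
    have e1 : ∀ (X : Fin m × Fin m → A) (Y : Fin m × Fin m → B) (w : C),
        (∑ j, f i j k (X (i, j)) (Y (j, k)) w) ^ 2 =
          ∑ j, ∑ j', f i j k (X (i, j)) (Y (j, k)) w * f i j' k (X (i, j')) (Y (j', k)) w := by
      intro X Y w
      rw [sq, Finset.sum_mul_sum]
    have e2 : ex (fun X : Fin m × Fin m → A => ex fun Y : Fin m × Fin m → B =>
        ex (fun w : C => (∑ j, f i j k (X (i, j)) (Y (j, k)) w) ^ 2)) =
        ∑ j, ∑ j', ex (fun X : Fin m × Fin m → A => ex fun Y : Fin m × Fin m → B => ex fun w : C =>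
          f i j k (X (i, j)) (Y (j, k)) w * f i j' k (X (i, j')) (Y (j', k)) w) := by
      rw [ex_congr fun X => ex_congr fun Y => ex_congr fun w => e1 X Y w]
      rw [ex_congr fun X => ex_congr fun Y => ex_sum _ _]
      rw [ex_congr fun X => ex_sum _ _]
      rw [ex_sum]
      refine Finset.sum_congr rfl fun j _ => ?_
      rw [ex_congr fun X => ex_congr fun Y => ex_sum _ _]
      rw [ex_congr fun X => ex_sum _ _]
      rw [ex_sum]
    have e3 : ∀ j j' : Fin m, ex (fun X : Fin m × Fin m → A => ex fun Y : Fin m × Fin m → B =>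
        ex fun w : C =>
          f i j k (X (i, j)) (Y (j, k)) w * f i j' k (X (i, j')) (Y (j', k)) w) ≤
        (if j = j' then 2 * K else 0) + 2 := by
      intro j j'
      by_cases hj : j = j'
      · subst hj
        rw [if_pos rfl]
        have e5 : ex (fun X : Fin m × Fin m → A => ex fun Y : Fin m × Fin m → B => ex fun w : C =>
            f i j k (X (i, j)) (Y (j, k)) w * f i j k (X (i, j)) (Y (j, k)) w) =
            ex (fun x => ex fun y => ex fun w => f i j k x y w ^ 2) := by
          rw [ex_pi_one (i, j) (fun x => ex fun Y : Fin m × Fin m → B => ex fun w : C =>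
            f i j k x (Y (j, k)) w * f i j k x (Y (j, k)) w)]
          refine ex_congr fun x => ?_
          rw [ex_pi_one (j, k) (fun y => ex fun w : C => f i j k x y w * f i j k x y w)]
          exact ex_congr fun y => ex_congr fun w => (sq _).symm
        rw [e5]
        linarith [h3 i j k]
      · rw [if_neg hj, zero_add]
        have hX : (i, j) ≠ (i, j') := fun h => hj (Prod.ext_iff.1 h).2
        have hY : (j, k) ≠ (j', k) := fun h => hj (Prod.ext_iff.1 h).1
        have e5 : ex (fun X : Fin m × Fin m → A => ex fun Y : Fin m × Fin m → B => ex fun w : C =>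
            f i j k (X (i, j)) (Y (j, k)) w * f i j' k (X (i, j')) (Y (j', k)) w) =
            ex (fun x => ex fun x' => ex fun y => ex fun y' => ex fun w =>
              f i j k x y w * f i j' k x' y' w) := by
          rw [ex_pi_two hX (fun x x' => ex fun Y : Fin m × Fin m → B => ex fun w : C =>
            f i j k x (Y (j, k)) w * f i j' k x' (Y (j', k)) w)]
          refine ex_congr fun x => ex_congr fun x' => ?_
          rw [ex_pi_two hY (fun y y' => ex fun w : C => f i j k x y w * f i j' k x' y' w)]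
        rw [e5]
        -- move `w` to the front
        have e6 : ex (fun x => ex fun x' => ex fun y => ex fun y' => ex fun w =>
            f i j k x y w * f i j' k x' y' w) =
            ex (fun w => ex (fun x => ex fun y => f i j k x y w) *
              ex (fun x' => ex fun y' => f i j' k x' y' w)) := by
          have s1 : ∀ w, ex (fun x => ex fun y => f i j k x y w) *
              ex (fun x' => ex fun y' => f i j' k x' y' w) =
              ex (fun x => ex fun x' => ex fun y => ex fun y' =>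
                f i j k x y w * f i j' k x' y' w) := by
            intro w
            rw [← ex_mul_right]
            refine ex_congr fun x => ?_
            rw [← ex_mul_left]
            refine ex_congr fun x' => ?_
            rw [← ex_mul_right]
            refine ex_congr fun y => ?_
            rw [← ex_mul_left]
          rw [ex_congr s1]
          rw [ex_comm (fun w x => ex fun x' => ex fun y => ex fun y' =>
            f i j k x y w * f i j' k x' y' w)]
          refine ex_congr fun x => ?_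
          rw [ex_comm (fun w x' => ex fun y => ex fun y' => f i j k x y w * f i j' k x' y' w)]
          refine ex_congr fun x' => ?_
          rw [ex_comm (fun w y => ex fun y' => f i j k x y w * f i j' k x' y' w)]
          refine ex_congr fun y => ?_
          rw [ex_comm (fun w y' => f i j k x y w * f i j' k x' y' w)]
        rw [e6]
        have e7 : ex (fun w => ex (fun x => ex fun y => f i j k x y w)) = 1 := by
          rw [ex_comm (fun w x => ex fun y => f i j k x y w)]
          rw [ex_congr fun x => ex_comm (fun w y => f i j k x y w)]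
          rw [ex_congr fun x => ex_congr fun y => h1 i j k x y]
          rw [ex_congr fun x => ex_const _, ex_const]
        calc ex (fun w => ex (fun x => ex fun y => f i j k x y w) *
              ex (fun x' => ex fun y' => f i j' k x' y' w))
            ≤ ex (fun w => ex (fun x => ex fun y => f i j k x y w) * 2) := by
              refine ex_mono fun w => mul_le_mul_of_nonneg_left (h2 i j' k w) ?_
              exact ex_nonneg fun x => ex_nonneg fun y => h0 i j k x y w
          _ = 2 := by rw [ex_mul_right, e7, one_mul]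
    rw [e2]
    refine (Finset.sum_le_sum fun j _ => Finset.sum_le_sum fun j' _ => e3 j j').trans ?_
    refine le_of_eq ?_
    have : ∀ j : Fin m, ∑ j' : Fin m, ((if j = j' then 2 * K else 0) + 2) = 2 * K + m * 2 := by
      intro j
      rw [Finset.sum_add_distrib, Finset.sum_ite_eq, if_pos (Finset.mem_univ j)]
      simp
    rw [Finset.sum_congr rfl fun j _ => this j]
    simp
    ring
  have c3 : ex (fun X : Fin m × Fin m → A => ex fun Y : Fin m × Fin m → B =>
      (∑ c : Fin m × Fin m, ex (fun w : C => (∑ j, f c.1 j c.2 (X (c.1, j)) (Y (j, c.2)) w) ^ 2)) /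
        (m : ℝ) ^ 6) =
      (∑ c : Fin m × Fin m, ex (fun X : Fin m × Fin m → A => ex fun Y : Fin m × Fin m → B =>
        ex (fun w : C => (∑ j, f c.1 j c.2 (X (c.1, j)) (Y (j, c.2)) w) ^ 2))) / (m : ℝ) ^ 6 := by
    rw [ex_congr fun X => ex_div _ _, ex_div]
    congr 1
    rw [ex_congr fun X => ex_sum _ _, ex_sum]
  rw [c3]
  calc (∑ c : Fin m × Fin m, ex (fun X : Fin m × Fin m → A => ex fun Y : Fin m × Fin m → B =>
        ex (fun w : C => (∑ j, f c.1 j c.2 (X (c.1, j)) (Y (j, c.2)) w) ^ 2))) / (m : ℝ) ^ 6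
      ≤ (∑ _c : Fin m × Fin m, (m * (2 * K) + (m : ℝ) ^ 2 * 2)) / (m : ℝ) ^ 6 := by
        gcongr with c _
        exact c2 c
    _ = 2 * K / (m : ℝ) ^ 3 + 2 / (m : ℝ) ^ 2 := by
        simp
        field_simp

/-- the `L ^ 1` form -/
theorem first_moment (hm : 0 < m) {K : ℝ}
    (f : Fin m → Fin m → Fin m → A → B → C → ℝ) (h0 : ∀ i j k x y w, 0 ≤ f i j k x y w)
    (h1 : ∀ i j k x y, ex (fun w => f i j k x y w) = 1)
    (h2 : ∀ i j k w, ex (fun x => ex fun y => f i j k x y w) ≤ 2)
    (h3 : ∀ i j k, ex (fun x => ex fun y => ex fun w => f i j k x y w ^ 2) ≤ 2 * K) :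
    ex (fun X : Fin m × Fin m → A => ex fun Y : Fin m × Fin m → B =>
      ex fun W : Fin m × Fin m → C =>
        |(∑ i, ∑ j, ∑ k, f i j k (X (i, j)) (Y (j, k)) (W (i, k))) / (m : ℝ) ^ 3 - 1|) ≤
      Real.sqrt (2 * K / (m : ℝ) ^ 3 + 2 / (m : ℝ) ^ 2) :=
  ex_abs3 (fun (X : Fin m × Fin m → A) (Y : Fin m × Fin m → B) (W : Fin m × Fin m → C) =>
    (∑ i, ∑ j, ∑ k, f i j k (X (i, j)) (Y (j, k)) (W (i, k))) / (m : ℝ) ^ 3 - 1)
    (second_moment hm f h0 h1 h2 h3)

end second

end Helper36.DG
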