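import Pool.Agent.Helper36.DG.A34
import Pool.Agent.Helper56.DG.Ker
import Pool.Agent.Helper94.DG.Defs2

/-!
# DG: G3, the total mass and the tails of the joint density
-/

set_option autoImplicit false

open Finset

namespace Helper36.DG

open Pool.Agent.Helper94.DG

section arr

variable {A : Type*} [Fintype A] [Nonempty A] {m : ℕ}

theorem ex_arr_one (i j : Fin m) (g : A → ℝ) :
    ex (fun X : Fin m → Fin m → A => g (X i j)) = ex g := by
  rw [ex_curry (fun X : Fin m → Fin m → A => g (X i j))]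
  exact ex_pi_one (i, j) g

theorem ex_arr_two {i j i' j' : Fin m} (h : (i, j) ≠ (i', j')) (g : A → A → ℝ) :
    ex (fun X : Fin m → Fin m → A => g (X i j) (X i' j')) = ex (fun x => ex (fun y => g x y)) := by
  rw [ex_curry (fun X : Fin m → Fin m → A => g (X i j) (X i' j'))]
  exact ex_pi_two h g

end arr

section line

variable {m L : ℕ} [Nonempty (Fin L)] [Nonempty (Fin (2 * L))]

theorem tri_one (i j k : Fin m) (φ : Fin L → Fin L → Fin (2 * L) → ℝ) :
    ex (fun S : Arr m L => φ (S.1 i j) (S.2.1 j k) (S.2.2 i k)) =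
      ex (fun x => ex fun y => ex fun w => φ x y w) := by
  rw [ex_prod3 (fun (X : Fin m → Fin m → Fin L) (Y : Fin m → Fin m → Fin L)
    (W : Fin m → Fin m → Fin (2 * L)) => φ (X i j) (Y j k) (W i k))]
  rw [ex_arr_one i j (fun x => ex fun Y : Fin m → Fin m → Fin L =>
    ex fun W : Fin m → Fin m → Fin (2 * L) => φ x (Y j k) (W i k))]
  refine ex_congr fun x => ?_
  rw [ex_arr_one j k (fun y => ex fun W : Fin m → Fin m → Fin (2 * L) => φ x y (W i k))]
  refine ex_congr fun y => ?_
  rw [ex_arr_one i k (fun w => φ x y w)]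

theorem off01 {k k' : Fin m} (h : k ≠ k') (i j : Fin m) (f f' : Fin L → Fin L → Fin (2 * L) → ℝ)
    (h1 : ∀ x y, ex (fun w => f x y w) = 1) (h1' : ∀ x y, ex (fun w => f' x y w) = 1) :
    ex (fun S : Arr m L => f (S.1 i j) (S.2.1 j k) (S.2.2 i k) *
      f' (S.1 i j) (S.2.1 j k') (S.2.2 i k')) ≤ 2 := by
  rw [ex_prod3 (fun (X : Fin m → Fin m → Fin L) (Y : Fin m → Fin m → Fin L)
    (W : Fin m → Fin m → Fin (2 * L)) => f (X i j) (Y j k) (W i k) * f' (X i j) (Y j k') (W i k'))]
  have e : ∀ (X Y : Fin m → Fin m → Fin L), ex (fun W : Fin m → Fin m → Fin (2 * L) =>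
      f (X i j) (Y j k) (W i k) * f' (X i j) (Y j k') (W i k')) = 1 := by
    intro X Y
    rw [ex_arr_two (fun h' => h (Prod.ext_iff.1 h').2)
      (fun w w' => f (X i j) (Y j k) w * f' (X i j) (Y j k') w')]
    rw [ex_congr fun w => ex_mul_left _ _, ex_mul_right, h1, h1', one_mul]
  rw [ex_congr fun X => ex_congr fun Y => e X Y, ex_congr fun X => ex_const _, ex_const]
  norm_num

theorem off12 {i i' : Fin m} (h : i ≠ i') (j k : Fin m) (f f' : Fin L → Fin L → Fin (2 * L) → ℝ)
    (h1 : ∀ x y, ex (fun w => f x y w) = 1) (h1' : ∀ x y, ex (fun w => f' x y w) = 1) :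
    ex (fun S : Arr m L => f (S.1 i j) (S.2.1 j k) (S.2.2 i k) *
      f' (S.1 i' j) (S.2.1 j k) (S.2.2 i' k)) ≤ 2 := by
  rw [ex_prod3 (fun (X : Fin m → Fin m → Fin L) (Y : Fin m → Fin m → Fin L)
    (W : Fin m → Fin m → Fin (2 * L)) => f (X i j) (Y j k) (W i k) * f' (X i' j) (Y j k) (W i' k))]
  have e : ∀ (X Y : Fin m → Fin m → Fin L), ex (fun W : Fin m → Fin m → Fin (2 * L) =>
      f (X i j) (Y j k) (W i k) * f' (X i' j) (Y j k) (W i' k)) = 1 := by
    intro X Y
    rw [ex_arr_two (fun h' => h (Prod.ext_iff.1 h').1)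
      (fun w w' => f (X i j) (Y j k) w * f' (X i' j) (Y j k) w')]
    rw [ex_congr fun w => ex_mul_left _ _, ex_mul_right, h1, h1', one_mul]
  rw [ex_congr fun X => ex_congr fun Y => e X Y, ex_congr fun X => ex_const _, ex_const]
  norm_num

theorem off02 {j j' : Fin m} (h : j ≠ j') (i k : Fin m) (f f' : Fin L → Fin L → Fin (2 * L) → ℝ)
    (h0 : ∀ x y w, 0 ≤ f x y w) (h1 : ∀ x y, ex (fun w => f x y w) = 1)
    (h2' : ∀ w, ex (fun x => ex fun y => f' x y w) ≤ 2) :
    ex (fun S : Arr m L => f (S.1 i j) (S.2.1 j k) (S.2.2 i k) *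
      f' (S.1 i j') (S.2.1 j' k) (S.2.2 i k)) ≤ 2 := by
  rw [ex_prod3 (fun (X : Fin m → Fin m → Fin L) (Y : Fin m → Fin m → Fin L)
    (W : Fin m → Fin m → Fin (2 * L)) => f (X i j) (Y j k) (W i k) * f' (X i j') (Y j' k) (W i k))]
  have hX : (i, j) ≠ (i, j') := fun h' => h (Prod.ext_iff.1 h').2
  have hY : (j, k) ≠ (j', k) := fun h' => h (Prod.ext_iff.1 h').1
  have e5 : ex (fun X : Fin m → Fin m → Fin L => ex fun Y : Fin m → Fin m → Fin L =>
      ex fun W : Fin m → Fin m → Fin (2 * L) =>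
        f (X i j) (Y j k) (W i k) * f' (X i j') (Y j' k) (W i k)) =
      ex (fun x => ex fun x' => ex fun y => ex fun y' => ex fun w => f x y w * f' x' y' w) := by
    rw [ex_arr_two hX (fun x x' => ex fun Y : Fin m → Fin m → Fin L =>
      ex fun W : Fin m → Fin m → Fin (2 * L) =>
        f x (Y j k) (W i k) * f' x' (Y j' k) (W i k))]
    refine ex_congr fun x => ex_congr fun x' => ?_
    rw [ex_arr_two hY (fun y y' => ex fun W : Fin m → Fin m → Fin (2 * L) =>
      f x y (W i k) * f' x' y' (W i k))]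
    refine ex_congr fun y => ex_congr fun y' => ?_
    rw [ex_arr_one i k (fun w => f x y w * f' x' y' w)]
  rw [e5]
  -- move `w` to the front
  have e6 : ex (fun x => ex fun x' => ex fun y => ex fun y' => ex fun w => f x y w * f' x' y' w) =
      ex (fun w => ex (fun x => ex fun y => f x y w) * ex (fun x' => ex fun y' => f' x' y' w)) := by
    have s1 : ∀ w, ex (fun x => ex fun y => f x y w) * ex (fun x' => ex fun y' => f' x' y' w) =
        ex (fun x => ex fun x' => ex fun y => ex fun y' => f x y w * f' x' y' w) := by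
      intro w
      rw [← ex_mul_right]
      refine ex_congr fun x => ?_
      rw [← ex_mul_left]
      refine ex_congr fun x' => ?_
      rw [← ex_mul_right]
      refine ex_congr fun y => ?_
      rw [← ex_mul_left]
    rw [ex_congr s1]
    rw [ex_comm (fun w x => ex fun x' => ex fun y => ex fun y' => f x y w * f' x' y' w)]
    refine ex_congr fun x => ?_
    rw [ex_comm (fun w x' => ex fun y => ex fun y' => f x y w * f' x' y' w)]
    refine ex_congr fun x' => ?_
    rw [ex_comm (fun w y => ex fun y' => f x y w * f' x' y' w)]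
    refine ex_congr fun y => ?_
    rw [ex_comm (fun w y' => f x y w * f' x' y' w)]
  rw [e6]
  have e7 : ex (fun w => ex (fun x => ex fun y => f x y w)) = 1 := by
    rw [ex_comm (fun w x => ex fun y => f x y w)]
    rw [ex_congr fun x => ex_comm (fun w y => f x y w)]
    rw [ex_congr fun x => ex_congr fun y => h1 x y]
    rw [ex_congr fun x => ex_const _, ex_const]
  calc ex (fun w => ex (fun x => ex fun y => f x y w) * ex (fun x' => ex fun y' => f' x' y' w))
      ≤ ex (fun w => ex (fun x => ex fun y => f x y w) * 2) := by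
        refine ex_mono fun w => mul_le_mul_of_nonneg_left (h2' w) ?_
        exact ex_nonneg fun x => ex_nonneg fun y => h0 x y w
    _ = 2 := by rw [ex_mul_right, e7, one_mul]

end line

/-- the second moment of a sum -/
theorem ex_sq_line {Ω : Type*} [Fintype Ω] {m : ℕ} (V : Fin m → Ω → ℝ) {R : ℝ}
    (hd : ∀ k, ex (fun ω => V k ω ^ 2) ≤ R)
    (ho : ∀ k k', k ≠ k' → ex (fun ω => V k ω * V k' ω) ≤ 2) :
    ex (fun ω => (∑ k, V k ω) ^ 2) ≤ m * R + 2 * (m : ℝ) ^ 2 := by
  have e : ∀ ω, (∑ k, V k ω) ^ 2 = ∑ k, ∑ k', V k ω * V k' ω := by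
    intro ω
    rw [sq, Finset.sum_mul_sum]
  rw [ex_congr e, ex_sum]
  have e1 : ∀ k : Fin m, ex (fun ω => ∑ k', V k ω * V k' ω) ≤ R + 2 * m := by
    intro k
    rw [ex_sum]
    have e2 : ∀ k' : Fin m, ex (fun ω => V k ω * V k' ω) ≤ (if k = k' then R else 0) + 2 := by
      intro k'
      by_cases h : k = k'
      · subst h
        rw [if_pos rfl]
        have := hd k
        rw [ex_congr fun ω => (sq (V k ω))] at this
        linarith
      · rw [if_neg h, zero_add]
        exact ho k k' h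
    refine (Finset.sum_le_sum fun k' _ => e2 k').trans (le_of_eq ?_)
    rw [Finset.sum_add_distrib, Finset.sum_ite_eq, if_pos (Finset.mem_univ k)]
    simp
    ring
  refine (Finset.sum_le_sum fun k _ => e1 k).trans (le_of_eq ?_)
  simp
  ring

/-- the inequality of Chebyshev -/
theorem ex_tail {Ω : Type*} [Fintype Ω] (G : Ω → ℝ) (P : Ω → Prop) [DecidablePred P] {t R : ℝ}
    (ht : 0 < t) (h0 : ∀ ω, 0 ≤ G ω) (hP : ∀ ω, P ω → t ≤ G ω)
    (hR : ex (fun ω => G ω ^ 2) ≤ R) :
    ex (fun ω => G ω * (if P ω then 1 else 0)) ≤ R / t := by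
  refine le_trans ?_ (div_le_div_of_nonneg_right hR ht.le)
  rw [← ex_div]
  refine ex_mono fun ω => ?_
  by_cases h : P ω
  · rw [if_pos h, mul_one, le_div_iff₀ ht, sq]
    exact mul_le_mul_of_nonneg_left (hP ω h) (h0 ω)
  · rw [if_neg h, mul_zero]
    positivity

section main

variable {m L : ℕ}

theorem densT_nonneg (d : Fin 3 → Bool) (a b : Fin m → Fin m → Fin L → ℕ)
    (c : Fin m → Fin m → Fin (2 * L) → ℕ) (T : Tri m) (S : Arr m L) : 0 ≤ densT d a b c T S :=
  Pool.Agent.Helper56.DG.dens_nonneg d _ _ _ _ _ _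

theorem dens_ex_w (hL : 0 < L) (d : Fin 3 → Bool) (a b : Fin L → ℕ) (c : Fin (2 * L) → ℕ)
    (x y : Fin L) : ex (fun w => Pool.Agent.Helper94.DG.dens d a b c x y w) = 1 := by
  have hLr : (0 : ℝ) < L := by exact_mod_cast hL
  unfold ex
  rw [Pool.Agent.Helper56.DG.dens_w, Fintype.card_fin]
  push_cast
  field_simp

theorem dens_ex_xy (hL : 0 < L) (d : Fin 3 → Bool) (a b : Fin L → ℕ) (c : Fin (2 * L) → ℕ)
    (w : Fin (2 * L)) :
    ex (fun x => ex fun y => Pool.Agent.Helper94.DG.dens d a b c x y w) ≤ 2 := by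
  have hLr : (0 : ℝ) < L := by exact_mod_cast hL
  unfold ex
  rw [← Finset.sum_div, Fintype.card_fin, div_div, div_le_iff₀ (by positivity)]
  refine (Pool.Agent.Helper56.DG.dens_xy d a b c w).trans (le_of_eq ?_)
  ring

theorem dens_ex_sq (hL : 0 < L) (d : Fin 3 → Bool) (hd : ∃ s, d s = true) (a b : Fin L → ℕ)
    (c : Fin (2 * L) → ℕ) (K : ℕ) (ha : ∀ x, a x < K) (hb : ∀ y, b y < K)
    (hc : ∀ w, c w < K) :
    ex (fun x => ex fun y => ex fun w => Pool.Agent.Helper94.DG.dens d a b c x y w ^ 2) ≤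
      6 * K := by
  have hLr : (0 : ℝ) < L := by exact_mod_cast hL
  unfold ex
  simp only [← Finset.sum_div, Fintype.card_fin]
  push_cast
  rw [div_div, div_div, div_le_iff₀ (by positivity)]
  refine (Pool.Agent.Helper56.DG.dens_sq d hd a b c K K K ha hb hc).trans (le_of_eq ?_)
  ring

theorem densT_ex (hL : 0 < L) (a b : Fin m → Fin m → Fin L → ℕ)
    (c : Fin m → Fin m → Fin (2 * L) → ℕ) (d : Fin 3 → Bool) (T : Tri m) :
    ex (fun S : Arr m L => densT d a b c T S) = 1 := by
  have n1 : Nonempty (Fin L) := ⟨⟨0, hL⟩⟩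
  have n2 : Nonempty (Fin (2 * L)) := ⟨⟨0, by omega⟩⟩
  obtain ⟨i, j, k⟩ := T
  change ex (fun S : Arr m L => Pool.Agent.Helper94.DG.dens d (a i j) (b j k) (c i k)
    (S.1 i j) (S.2.1 j k) (S.2.2 i k)) = 1
  rw [tri_one i j k (fun x y w => Pool.Agent.Helper94.DG.dens d (a i j) (b j k) (c i k) x y w)]
  rw [ex_congr fun x => ex_congr fun y => dens_ex_w hL d _ _ _ x y]
  rw [ex_congr fun x => ex_const _, ex_const]

theorem densT_ex_sq (hL : 0 < L) (a b : Fin m → Fin m → Fin L → ℕ)
    (c : Fin m → Fin m → Fin (2 * L) → ℕ) (K : ℕ)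
    (ha : ∀ i j x, a i j x < K) (hb : ∀ i j x, b i j x < K) (hc : ∀ i j x, c i j x < K)
    (d : Fin 3 → Bool) (hd : ∃ s, d s = true) (T : Tri m) :
    ex (fun S : Arr m L => densT d a b c T S ^ 2) ≤ 6 * K := by
  have n1 : Nonempty (Fin L) := ⟨⟨0, hL⟩⟩
  have n2 : Nonempty (Fin (2 * L)) := ⟨⟨0, by omega⟩⟩
  obtain ⟨i, j, k⟩ := T
  change ex (fun S : Arr m L => Pool.Agent.Helper94.DG.dens d (a i j) (b j k) (c i k)
    (S.1 i j) (S.2.1 j k) (S.2.2 i k) ^ 2) ≤ _
  rw [tri_one i j k (fun x y w =>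
    Pool.Agent.Helper94.DG.dens d (a i j) (b j k) (c i k) x y w ^ 2)]
  exact dens_ex_sq hL d hd _ _ _ K (ha i j) (hb j k) (hc i k)

theorem dens_total (hL : 0 < L) (a b : Fin m → Fin m → Fin L → ℕ)
    (c : Fin m → Fin m → Fin (2 * L) → ℕ) (d : Fin 3 → Bool) :
    ∑ T : Tri m, ∑ S : Arr m L, densT d a b c T S =
      Fintype.card (Arr m L) * (m : ℝ) ^ 3 := by
  have n1 : Nonempty (Fin L) := ⟨⟨0, hL⟩⟩
  have n2 : Nonempty (Fin (2 * L)) := ⟨⟨0, by omega⟩⟩
  have hN : (Fintype.card (Arr m L) : ℝ) ≠ 0 := by exact_mod_cast Fintype.card_ne_zero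
  have e : ∀ T : Tri m, ∑ S : Arr m L, densT d a b c T S = Fintype.card (Arr m L) := by
    intro T
    have := densT_ex hL a b c d T
    unfold ex at this
    rw [div_eq_one_iff_eq hN] at this
    exact this
  rw [Finset.sum_congr rfl fun T _ => e T]
  simp
  ring

open Classical in
theorem tail (hm : 0 < m) (hL : 0 < L) (a b : Fin m → Fin m → Fin L → ℕ)
    (c : Fin m → Fin m → Fin (2 * L) → ℕ) (K : ℕ) (hK : 1 ≤ K)
    (ha : ∀ i j x, a i j x < K) (hb : ∀ i j x, b i j x < K) (hc : ∀ i j x, c i j x < K)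
    (d : Fin 3 → Bool) (hd : ∃ s, d s = true) (h : ℝ) (hh : 0 < h) :
    ∑ T : Tri m, ∑ S : Arr m L,
      densT d a b c T S * (if Good d a b c h K T S then 0 else 1) ≤
      24 / h * (Fintype.card (Arr m L) * (m : ℝ) ^ 3) := by
  have n1 : Nonempty (Fin L) := ⟨⟨0, hL⟩⟩
  have n2 : Nonempty (Fin (2 * L)) := ⟨⟨0, by omega⟩⟩
  have hN : (0 : ℝ) < Fintype.card (Arr m L) := by exact_mod_cast Fintype.card_pos
  have hm' : (0 : ℝ) < m := by exact_mod_cast hm
  have hK' : (1 : ℝ) ≤ K := by exact_mod_cast hK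
  have hf : ∀ T S, 0 ≤ densT d a b c T S := densT_nonneg d a b c
  set τ : ℝ := h * (m + K) with hτ
  have hτ0 : 0 < τ := by positivity
  have hsq : ∀ T : Tri m, ex (fun S : Arr m L => densT d a b c T S ^ 2) ≤ 6 * K :=
    densT_ex_sq hL a b c K ha hb hc d hd
  have hline : (m : ℝ) * (6 * K) + 2 * (m : ℝ) ^ 2 ≤ 6 * m * (m + K) := by nlinarith
  have hfin : 6 * m * (m + K) / τ = 6 * m / h := by
    rw [hτ]
    field_simp
  -- the four events
  have p1 : ∀ T : Tri m, ex (fun S : Arr m L => densT d a b c T S *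
      (if h * K < densT d a b c T S then 1 else 0)) ≤ 6 / h := by
    intro T
    refine (ex_tail (fun S : Arr m L => densT d a b c T S)
      (fun S => h * K < densT d a b c T S) (t := h * K) (by positivity) (hf T)
      (fun S hS => hS.le) (hsq T)).trans (le_of_eq ?_)
    field_simp
  have p2 : ∀ i j : Fin m, ex (fun S : Arr m L => (∑ k, densT d a b c (i, j, k) S) *
      (if τ < ∑ k, densT d a b c (i, j, k) S then 1 else 0)) ≤ 6 * m / h := by
    intro i j
    rw [← hfin]
    refine ex_tail (fun S : Arr m L => ∑ k, densT d a b c (i, j, k) S)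
      (fun S => τ < ∑ k, densT d a b c (i, j, k) S) hτ0 (fun S => Finset.sum_nonneg fun k _ =>
        hf _ S) (fun S hS => hS.le) ((ex_sq_line (fun k (S : Arr m L) => densT d a b c (i, j, k) S)
          (fun k => hsq _) (fun k k' hk => ?_)).trans hline)
    exact off01 hk i j (fun x y w => Pool.Agent.Helper94.DG.dens d (a i j) (b j k) (c i k) x y w)
      (fun x y w => Pool.Agent.Helper94.DG.dens d (a i j) (b j k') (c i k') x y w)
      (dens_ex_w hL d _ _ _) (dens_ex_w hL d _ _ _)
  have p3 : ∀ j k : Fin m, ex (fun S : Arr m L => (∑ i, densT d a b c (i, j, k) S) *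
      (if τ < ∑ i, densT d a b c (i, j, k) S then 1 else 0)) ≤ 6 * m / h := by
    intro j k
    rw [← hfin]
    refine ex_tail (fun S : Arr m L => ∑ i, densT d a b c (i, j, k) S)
      (fun S => τ < ∑ i, densT d a b c (i, j, k) S) hτ0 (fun S => Finset.sum_nonneg fun i _ =>
        hf _ S) (fun S hS => hS.le) ((ex_sq_line (fun i (S : Arr m L) => densT d a b c (i, j, k) S)
          (fun i => hsq _) (fun i i' hi => ?_)).trans hline)
    exact off12 hi j k (fun x y w => Pool.Agent.Helper94.DG.dens d (a i j) (b j k) (c i k) x y w)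
      (fun x y w => Pool.Agent.Helper94.DG.dens d (a i' j) (b j k) (c i' k) x y w)
      (dens_ex_w hL d _ _ _) (dens_ex_w hL d _ _ _)
  have p4 : ∀ i k : Fin m, ex (fun S : Arr m L => (∑ j, densT d a b c (i, j, k) S) *
      (if τ < ∑ j, densT d a b c (i, j, k) S then 1 else 0)) ≤ 6 * m / h := by
    intro i k
    rw [← hfin]
    refine ex_tail (fun S : Arr m L => ∑ j, densT d a b c (i, j, k) S)
      (fun S => τ < ∑ j, densT d a b c (i, j, k) S) hτ0 (fun S => Finset.sum_nonneg fun j _ =>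
        hf _ S) (fun S hS => hS.le) ((ex_sq_line (fun j (S : Arr m L) => densT d a b c (i, j, k) S)
          (fun j => hsq _) (fun j j' hj => ?_)).trans hline)
    exact off02 hj i k (fun x y w => Pool.Agent.Helper94.DG.dens d (a i j) (b j k) (c i k) x y w)
      (fun x y w => Pool.Agent.Helper94.DG.dens d (a i j') (b j' k) (c i k) x y w)
      (fun x y w => Pool.Agent.Helper56.DG.dens_nonneg d _ _ _ x y w)
      (dens_ex_w hL d _ _ _) (dens_ex_xy hL d _ _ _)
  -- pointwise
  have pt : ∀ (T : Tri m) (S : Arr m L),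
      densT d a b c T S * (if Good d a b c h K T S then 0 else 1) ≤
      densT d a b c T S * (if h * K < densT d a b c T S then 1 else 0) +
      densT d a b c T S * (if τ < ∑ k, densT d a b c (T.1, T.2.1, k) S then 1 else 0) +
      densT d a b c T S * (if τ < ∑ i, densT d a b c (i, T.2.1, T.2.2) S then 1 else 0) +
      densT d a b c T S * (if τ < ∑ j, densT d a b c (T.1, j, T.2.2) S then 1 else 0) := by
    intro T S
    have f0 := hf T S
    have g1 : ∀ (P : Prop) [Decidable P], 0 ≤ densT d a b c T S * (if P then 1 else 0) := by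
      intro P _
      by_cases hP : P
      · rw [if_pos hP, mul_one]
        exact f0
      · rw [if_neg hP, mul_zero]
    have q1 := g1 (h * K < densT d a b c T S)
    have q2 := g1 (τ < ∑ k, densT d a b c (T.1, T.2.1, k) S)
    have q3 := g1 (τ < ∑ i, densT d a b c (i, T.2.1, T.2.2) S)
    have q4 := g1 (τ < ∑ j, densT d a b c (T.1, j, T.2.2) S)
    by_cases hG : Good d a b c h K T S
    · rw [if_pos hG, mul_zero]
      linarith
    · rw [if_neg hG, mul_one]
      by_cases r1 : h * K < densT d a b c T S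
      · rw [if_pos r1, mul_one]
        linarith
      by_cases r2 : τ < ∑ k, densT d a b c (T.1, T.2.1, k) S
      · rw [if_pos r2, mul_one]
        linarith
      by_cases r3 : τ < ∑ i, densT d a b c (i, T.2.1, T.2.2) S
      · rw [if_pos r3, mul_one]
        linarith
      by_cases r4 : τ < ∑ j, densT d a b c (T.1, j, T.2.2) S
      · rw [if_pos r4, mul_one]
        linarith
      exact absurd ⟨not_lt.1 r1, not_lt.1 r2, not_lt.1 r3, not_lt.1 r4⟩ hG
  have toEx : ∀ F : Arr m L → ℝ, ∑ S, F S = Fintype.card (Arr m L) * ex F := by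
    intro F
    unfold ex
    field_simp
  have t1 : ∑ T : Tri m, ∑ S : Arr m L, densT d a b c T S *
      (if h * K < densT d a b c T S then 1 else 0) ≤
      Fintype.card (Arr m L) * ((m : ℝ) ^ 3 * (6 / h)) := by
    simp only [toEx]
    rw [← Finset.mul_sum]
    refine mul_le_mul_of_nonneg_left ?_ hN.le
    refine (Finset.sum_le_sum fun T _ => p1 T).trans (le_of_eq ?_)
    rw [Finset.sum_const, Finset.card_univ, nsmul_eq_mul, Fintype.card_prod, Fintype.card_prod,
      Fintype.card_fin]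
    push_cast
    ring
  have t2 : ∑ T : Tri m, ∑ S : Arr m L, densT d a b c T S *
      (if τ < ∑ k, densT d a b c (T.1, T.2.1, k) S then 1 else 0) ≤
      Fintype.card (Arr m L) * ((m : ℝ) ^ 3 * (6 / h)) := by
    have e : ∑ T : Tri m, ∑ S : Arr m L, densT d a b c T S *
        (if τ < ∑ k, densT d a b c (T.1, T.2.1, k) S then 1 else 0) =
        ∑ i, ∑ j, ∑ S : Arr m L, (∑ k, densT d a b c (i, j, k) S) *
          (if τ < ∑ k, densT d a b c (i, j, k) S then 1 else 0) := by
      rw [Fintype.sum_prod_type]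
      refine Finset.sum_congr rfl fun i _ => ?_
      rw [Fintype.sum_prod_type]
      refine Finset.sum_congr rfl fun j _ => ?_
      rw [Finset.sum_comm]
      refine Finset.sum_congr rfl fun S _ => ?_
      rw [Finset.sum_mul]
    rw [e]
    simp only [toEx]
    simp only [← Finset.mul_sum]
    refine mul_le_mul_of_nonneg_left ?_ hN.le
    refine (Finset.sum_le_sum fun i _ => Finset.sum_le_sum fun j _ => p2 i j).trans (le_of_eq ?_)
    simp
    ring
  have t3 : ∑ T : Tri m, ∑ S : Arr m L, densT d a b c T S *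
      (if τ < ∑ i, densT d a b c (i, T.2.1, T.2.2) S then 1 else 0) ≤
      Fintype.card (Arr m L) * ((m : ℝ) ^ 3 * (6 / h)) := by
    have e : ∑ T : Tri m, ∑ S : Arr m L, densT d a b c T S *
        (if τ < ∑ i, densT d a b c (i, T.2.1, T.2.2) S then 1 else 0) =
        ∑ j, ∑ k, ∑ S : Arr m L, (∑ i, densT d a b c (i, j, k) S) *
          (if τ < ∑ i, densT d a b c (i, j, k) S then 1 else 0) := by
      rw [Fintype.sum_prod_type, Finset.sum_comm, Fintype.sum_prod_type]
      refine Finset.sum_congr rfl fun j _ => Finset.sum_congr rfl fun k _ => ?_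
      rw [Finset.sum_comm]
      refine Finset.sum_congr rfl fun S _ => ?_
      rw [Finset.sum_mul]
    rw [e]
    simp only [toEx]
    simp only [← Finset.mul_sum]
    refine mul_le_mul_of_nonneg_left ?_ hN.le
    refine (Finset.sum_le_sum fun i _ => Finset.sum_le_sum fun j _ => p3 i j).trans (le_of_eq ?_)
    simp
    ring
  have t4 : ∑ T : Tri m, ∑ S : Arr m L, densT d a b c T S *
      (if τ < ∑ j, densT d a b c (T.1, j, T.2.2) S then 1 else 0) ≤
      Fintype.card (Arr m L) * ((m : ℝ) ^ 3 * (6 / h)) := by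
    have e : ∑ T : Tri m, ∑ S : Arr m L, densT d a b c T S *
        (if τ < ∑ j, densT d a b c (T.1, j, T.2.2) S then 1 else 0) =
        ∑ i, ∑ k, ∑ S : Arr m L, (∑ j, densT d a b c (i, j, k) S) *
          (if τ < ∑ j, densT d a b c (i, j, k) S then 1 else 0) := by
      rw [Fintype.sum_prod_type]
      refine Finset.sum_congr rfl fun i _ => ?_
      rw [Fintype.sum_prod_type, Finset.sum_comm]
      refine Finset.sum_congr rfl fun k _ => ?_
      rw [Finset.sum_comm]
      refine Finset.sum_congr rfl fun S _ => ?_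
      rw [Finset.sum_mul]
    rw [e]
    simp only [toEx]
    simp only [← Finset.mul_sum]
    refine mul_le_mul_of_nonneg_left ?_ hN.le
    refine (Finset.sum_le_sum fun i _ => Finset.sum_le_sum fun j _ => p4 i j).trans (le_of_eq ?_)
    simp
    ring
  calc ∑ T : Tri m, ∑ S : Arr m L,
      densT d a b c T S * (if Good d a b c h K T S then 0 else 1)
      ≤ ∑ T : Tri m, ∑ S : Arr m L,
        (densT d a b c T S * (if h * K < densT d a b c T S then 1 else 0) +
      densT d a b c T S * (if τ < ∑ k, densT d a b c (T.1, T.2.1, k) S then 1 else 0) +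
      densT d a b c T S * (if τ < ∑ i, densT d a b c (i, T.2.1, T.2.2) S then 1 else 0) +
      densT d a b c T S * (if τ < ∑ j, densT d a b c (T.1, j, T.2.2) S then 1 else 0)) :=
        Finset.sum_le_sum fun T _ => Finset.sum_le_sum fun S _ => pt T S
    _ ≤ 24 / h * (Fintype.card (Arr m L) * (m : ℝ) ^ 3) := by
        simp only [Finset.sum_add_distrib]
        have : 24 / h * (Fintype.card (Arr m L) * (m : ℝ) ^ 3) =
            4 * (Fintype.card (Arr m L) * ((m : ℝ) ^ 3 * (6 / h))) := by ring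
        rw [this]
        linarith

end main

end Helper36.DG
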